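import Pool.Agent.Lib.H29J.Defs

/-!
# Invariant forms of a geometric system
-/

set_option autoImplicit false

namespace Pool.Agent.Lib.H94J

open Pool.Agent.Lib.H99JetCalc Pool.Agent.Lib.H29J

variable {𝕜 : Type} [RCLike 𝕜] {N : ℕ}

/-- The value `g(X,Y) = g_ab X^a Y^b` of the bilinear form with matrix `g`. -/
def bil (g : Fin N → Fin N → 𝕜) (X Y : Fin N → 𝕜) : 𝕜 := ∑ a, ∑ b, g a b * X a * Y b

/-- `g` is an analytic, symmetric, nondegenerate bilinear form on the open set `U`, parallel with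
respect to the connection `α` (`∂_m g_ab = α^s_ma g_sb + α^s_mb g_as`) and invariant under `σ`:
`g(σ(X,Y,Z),W) = g(Z,σ(Y,X,W))`. -/
structure InvForm (S : GeometricSystem 𝕜 N) (U : Set (Fin N → 𝕜))
    (g : (Fin N → 𝕜) → Fin N → Fin N → 𝕜) : Prop where
  analytic : ∀ a b, AnalyticOnNhd 𝕜 (fun u => g u a b) U
  symm : ∀ u ∈ U, ∀ a b, g u a b = g u b a
  nondeg : ∀ u ∈ U, (Matrix.of (g u)).det ≠ 0
  parallel : ∀ u ∈ U, ∀ m a b, GeometricSystem.pdu m (fun u => g u a b) u =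
    ∑ s, (S.α u s m a * g u s b + S.α u s m b * g u a s)
  inv : ∀ u ∈ U, ∀ X Y Z W, bil (g u) (S.σ u X Y Z) W = bil (g u) Z (S.σ u Y X W)

end Pool.Agent.Lib.H94J
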