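import Pool.Agent.Lib.H94J.R3

/-!
# The form on vectors of differential functions; the reduced densities
-/

set_option autoImplicit false

namespace Pool.Agent.Lib.H94J

open Pool.Agent.Lib.H99JetCalc Pool.Agent.Lib.H29J

variable {𝕜 : Type} [RCLike 𝕜] {N : ℕ}

section

variable {S : GeometricSystem 𝕜 N} {g : (Fin N → 𝕜) → Fin N → Fin N → 𝕜}

/-- the components of the form as differential functions -/
noncomputable def gA (h : InvForm S S.dom g) (a b : Fin N) : diffAlg S.jets :=
  toA S (fun u => g u a b) (h.analytic a b)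

/-- the form on vectors -/
noncomputable def gf (h : InvForm S S.dom g) (x y : Fin N → diffAlg S.jets) : diffAlg S.jets :=
  ∑ a, ∑ b, gA h a b * x a * y b

variable (h : InvForm S S.dom g)

theorem gA_symm (a b : Fin N) : gA h a b = gA h b a := by
  apply Subtype.ext
  funext j
  exact h.symm _ j.2 a b

theorem gf_add_left (x x' y : Fin N → diffAlg S.jets) : gf h (x + x') y = gf h x y + gf h x' y := by
  unfold gf
  simp only [Pi.add_apply, mul_add, add_mul, Finset.sum_add_distrib]

theorem gf_sub_left (x x' y : Fin N → diffAlg S.jets) : gf h (x - x') y = gf h x y - gf h x' y := by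
  unfold gf
  simp only [Pi.sub_apply, mul_sub, sub_mul, Finset.sum_sub_distrib]

theorem gf_smul_left (c : 𝕜) (x y : Fin N → diffAlg S.jets) :
    gf h (c • x) y = c • gf h x y := by
  unfold gf
  simp only [Pi.smul_apply, mul_smul_comm, smul_mul_assoc, Finset.smul_sum]

theorem ev_gA (W : Fin N → diffAlg S.jets) (a b : Fin N) :
    ev (isOpen_jets S) W (gA h a b) = ∑ s, (GW S W s a * gA h s b + GW S W s b * gA h a s) := by
  have e : ev (isOpen_jets S) W (gA h a b) =
      ∑ m, toA S _ (pdu_analytic S (h.analytic a b) m) * W m := ev_toA S W _ _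
  have e2 : ∀ m, toA S _ (pdu_analytic S (h.analytic a b) m) =
      ∑ s, (Gam S s m a * gA h s b + Gam S s m b * gA h a s) := by
    intro m
    apply Subtype.ext
    funext j
    have h1 := h.parallel _ j.2 m a b
    simp only [AddSubmonoidClass.coe_finsetSum, Finset.sum_apply, MulMemClass.coe_mul,
      Pi.mul_apply, AddMemClass.coe_add, Pi.add_apply]
    exact h1
  rw [e]
  simp only [e2, GW, Finset.sum_mul]
  rw [Finset.sum_comm]
  refine Finset.sum_congr rfl fun s _ => ?_
  rw [← Finset.sum_add_distrib]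
  refine Finset.sum_congr rfl fun m _ => ?_
  ring

variable (h2 : S.C2) (h4 : S.C4) (h5 : S.C5)

/-- The form is parallel along every evolutionary field. -/
theorem ev_gf (W x y : Fin N → diffAlg S.jets) :
    ev (isOpen_jets S) W (gf h x y) =
      gf h ((nab S h2 h4 h5 W).f x) y + gf h x ((nab S h2 h4 h5 W).f y) := by
  have e1 : ev (isOpen_jets S) W (gf h x y) =
      ∑ a, ∑ b, ev (isOpen_jets S) W (gA h a b) * x a * y b
      + ∑ a, ∑ b, gA h a b * ev (isOpen_jets S) W (x a) * y b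
      + ∑ a, ∑ b, gA h a b * x a * ev (isOpen_jets S) W (y b) := by
    unfold gf
    simp only [map_sum, Derivation.leibniz, smul_eq_mul, ← Finset.sum_add_distrib]
    refine Finset.sum_congr rfl fun a _ => Finset.sum_congr rfl fun b _ => ?_
    ring
  have e2 : gf h ((nab S h2 h4 h5 W).f x) y =
      ∑ a, ∑ b, gA h a b * ev (isOpen_jets S) W (x a) * y b
      + ∑ a, ∑ b, (∑ s, GW S W s a * gA h s b) * x a * y b := by
    unfold gf
    simp only [nab_f, mul_add, add_mul, Finset.sum_add_distrib]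
    congr 1
    have : ∀ a b, gA h a b * (∑ k, GW S W a k * x k) * y b =
        ∑ k, GW S W a k * gA h a b * x k * y b := by
      intro a b
      rw [Finset.mul_sum, Finset.sum_mul]
      refine Finset.sum_congr rfl fun k _ => ?_
      ring
    simp only [this, Finset.sum_mul]
    have e3 : ∀ a, ∑ b, ∑ k, GW S W a k * gA h a b * x k * y b =
        ∑ k, ∑ b, GW S W a k * gA h a b * x k * y b := fun a => Finset.sum_comm
    simp only [e3]
    rw [Finset.sum_comm]
    refine Finset.sum_congr rfl fun k _ => ?_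
    rw [Finset.sum_comm]
  have e4 : gf h x ((nab S h2 h4 h5 W).f y) =
      ∑ a, ∑ b, gA h a b * x a * ev (isOpen_jets S) W (y b)
      + ∑ a, ∑ b, (∑ s, GW S W s b * gA h a s) * x a * y b := by
    unfold gf
    simp only [nab_f, mul_add, Finset.sum_add_distrib]
    congr 1
    have : ∀ a b, gA h a b * x a * (∑ k, GW S W b k * y k) =
        ∑ k, GW S W b k * gA h a b * x a * y k := by
      intro a b
      rw [Finset.mul_sum]
      refine Finset.sum_congr rfl fun k _ => ?_
      ring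
    simp only [this, Finset.sum_mul]
    refine Finset.sum_congr rfl fun a _ => ?_
    rw [Finset.sum_comm]
  rw [e1, e2, e4]
  simp only [ev_gA, Finset.sum_add_distrib, add_mul]
  ring

theorem D_gf (x y : Fin N → diffAlg S.jets) :
    (jetCalc (isOpen_jets S)).D (gf h x y) =
      gf h ((nab S h2 h4 h5 (vel S)).f x) y + gf h x ((nab S h2 h4 h5 (vel S)).f y) := by
  rw [← ev_vel]; exact ev_gf h h2 h4 h5 _ x y

/-- R7: integration by parts. -/
theorem gf_parts (n : ℕ) : ∀ j, j ≤ n → ∃ η : diffAlg S.jets,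
    gf h (((nab S h2 h4 h5 (vel S)).f)^[n] (vel S)) (vel S) =
      (-1 : 𝕜) ^ j • gf h (((nab S h2 h4 h5 (vel S)).f)^[n - j] (vel S))
        (((nab S h2 h4 h5 (vel S)).f)^[j] (vel S)) + (jetCalc (isOpen_jets S)).D η := by
  intro j
  induction j with
  | zero => intro _; exact ⟨0, by rw [pow_zero, one_smul, map_zero, add_zero]; rfl⟩
  | succ j ih =>
    intro hj
    obtain ⟨η, hη⟩ := ih (by omega)
    obtain ⟨a, ha⟩ : ∃ a, n - j = a + 1 := ⟨n - j - 1, by omega⟩
    have ha' : n - (j + 1) = a := by omega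
    refine ⟨η + (-1 : 𝕜) ^ j • gf h (((nab S h2 h4 h5 (vel S)).f)^[a] (vel S))
        (((nab S h2 h4 h5 (vel S)).f)^[j] (vel S)), ?_⟩
    rw [hη, ha, ha', map_add, Derivation.map_smul, D_gf h h2 h4 h5, Function.iterate_succ_apply',
      Function.iterate_succ_apply', pow_succ]
    module

theorem gA_Ord (a b : Fin N) : gA h a b ∈ Ord S.jets 0 := toA_Ord S _ _

/-- R8: the Hessian of `g(∇^m v, ∇^m v)`. -/
theorem gf_hess (m : ℕ) (a b : Fin N) :
    (jetCalc (isOpen_jets S)).pd (m + 1) a ((jetCalc (isOpen_jets S)).pd (m + 1) b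
      (gf h (((nab S h2 h4 h5 (vel S)).f)^[m] (vel S))
        (((nab S h2 h4 h5 (vel S)).f)^[m] (vel S)))) = 2 * gA h a b := by
  obtain ⟨y, hy⟩ : ∃ y, y = ((nab S h2 h4 h5 (vel S)).f)^[m] (vel S) := ⟨_, rfl⟩
  have h1 := nab_iter S h2 h4 h5 m
  rw [← hy] at h1 ⊢
  have hyc : ∀ b c, (jetCalc (isOpen_jets S)).pd (m + 1) b (y c) = if b = c then 1 else 0 := by
    intro b c
    have e : y c = X S.jets (m + 1) c + (y - fun i => X S.jets (m + 1) i) c := by
      rw [Pi.sub_apply]; ring
    have e2 : (jetCalc (isOpen_jets S)).pd (m + 1) b (X S.jets (m + 1) c) =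
        if b = c then 1 else 0 := by
      have := (jetCalc (isOpen_jets S)).pd_X (m + 1) b (m + 1) c
      simp only [true_and] at this
      exact this
    rw [e, map_add, e2, pd_Ord (isOpen_jets S) (Nat.lt_succ_self m) b (h1 c), add_zero]
  have hg0 : ∀ b c d, (jetCalc (isOpen_jets S)).pd (m + 1) b (gA h c d) = 0 := fun b c d =>
    pd_Ord (isOpen_jets S) (Nat.succ_pos m) b (gA_Ord h c d)
  have e1 : (jetCalc (isOpen_jets S)).pd (m + 1) b (gf h y y) = 2 * ∑ c, gA h b c * y c := by
    unfold gf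
    simp only [map_sum, Derivation.leibniz, smul_eq_mul, hyc, hg0, mul_zero, add_zero, mul_ite,
      mul_one, Finset.sum_add_distrib, Finset.sum_ite_eq, Finset.mem_univ, if_true]
    have e3 : ∑ x, ∑ x_1, (if b = x then y x_1 * gA h x x_1 else 0) =
        ∑ c, gA h b c * y c := by
      rw [Finset.sum_comm]
      simp only [Finset.sum_ite_eq, Finset.mem_univ, if_true]
      exact Finset.sum_congr rfl fun c _ => mul_comm _ _
    have e4 : ∑ x, gA h x b * y x = ∑ c, gA h b c * y c :=
      Finset.sum_congr rfl fun c _ => by rw [gA_symm h c b]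
    rw [e3, e4]
    ring
  rw [e1, Derivation.leibniz]
  have e5 : (jetCalc (isOpen_jets S)).pd (m + 1) a (2 : diffAlg S.jets) = 0 := by
    have : (2 : diffAlg S.jets) = ((2 : ℕ) : diffAlg S.jets) := Nat.cast_ofNat.symm
    rw [this]
    exact Derivation.map_natCast _ _
  rw [e5, smul_zero, add_zero, map_sum, smul_eq_mul]
  congr 1
  simp only [Derivation.leibniz, smul_eq_mul, hyc, hg0, mul_zero, add_zero, mul_ite, mul_one,
    Finset.sum_ite_eq, Finset.mem_univ, if_true]
  exact gA_symm h b a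

theorem iter_VOrd (m : ℕ) : ((nab S h2 h4 h5 (vel S)).f)^[m] (vel S) ∈ VOrd S (m + 1) := by
  have h1 := nab_iter S h2 h4 h5 m
  have : ((nab S h2 h4 h5 (vel S)).f)^[m] (vel S) =
      (((nab S h2 h4 h5 (vel S)).f)^[m] (vel S) - fun i => X S.jets (m + 1) i)
        + fun i => X S.jets (m + 1) i := by abel
  rw [this]
  exact add_mem (fun i => Ord_mono (Nat.le_succ m) (h1 i)) (fun i => Ord_X _ i)

/-- The reduced density. -/
theorem reduced {x : ℕ → Fin N → diffAlg S.jets} (hx : IsRic h2 h4 h5 x) (m : ℕ) :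
    ∃ η : diffAlg S.jets,
      gf h (x (2 * m + 1)) (vel S) - (jetCalc (isOpen_jets S)).D η ∈ Ord S.jets (m + 1) ∧
      ∀ a b, (jetCalc (isOpen_jets S)).pd (m + 1) a ((jetCalc (isOpen_jets S)).pd (m + 1) b
        (gf h (x (2 * m + 1)) (vel S) - (jetCalc (isOpen_jets S)).D η)) =
          (-1 : 𝕜) ^ m • (2 * gA h a b) := by
  obtain ⟨y, hy⟩ : ∃ y, y = ((nab S h2 h4 h5 (vel S)).f)^[m] (vel S) := ⟨_, rfl⟩
  have hl := ric_lead hx (2 * m)
  have hsq : (-1 : 𝕜) ^ (2 * m) = 1 := by rw [pow_mul]; norm_num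
  rw [hsq, one_smul] at hl
  obtain ⟨η₁, hη₁⟩ := gf_parts h h2 h4 h5 (2 * m) m (by omega)
  have hm : 2 * m - m = m := by omega
  rw [hm, ← hy] at hη₁
  obtain ⟨r, hr⟩ : ∃ r, r = x (2 * m + 1) - ((nab S h2 h4 h5 (vel S)).f)^[2 * m] (vel S) :=
    ⟨_, rfl⟩
  rw [← hr] at hl
  have hP : gf h r (vel S) ∈ P S.jets (2 * m + 2) 3 (2 * m + 2) := by
    unfold gf
    refine Submodule.sum_mem _ fun a _ => Submodule.sum_mem _ fun b _ => ?_
    have h1 := P_mul (P_mono (M' := 2 * m + 2) (le_refl 3) (by omega)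
      (P_cmul (gA_Ord h a b) (hl a))) (P_mono (M' := 2 * m + 2) (le_refl 1) (by omega)
        (VP_vel (S := S) b))
    exact P_mono (by omega) le_rfl h1
  obtain ⟨η₂, hη₂⟩ := P_reduce (isOpen_jets S) m (2 * m + 2) (by omega) _ hP
  obtain ⟨f, hf⟩ : ∃ f, f = gf h r (vel S) - (jetCalc (isOpen_jets S)).D η₂ := ⟨_, rfl⟩
  rw [← hf] at hη₂
  have e : gf h (x (2 * m + 1)) (vel S) - (jetCalc (isOpen_jets S)).D (η₁ + η₂) =
      (-1 : 𝕜) ^ m • gf h y y + f := by
    have e1 : gf h (x (2 * m + 1)) (vel S) =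
        gf h (((nab S h2 h4 h5 (vel S)).f)^[2 * m] (vel S)) (vel S) + gf h r (vel S) := by
      rw [← gf_add_left, hr]
      congr 1
      abel
    rw [e1, hη₁, hf, map_add]
    abel
  refine ⟨η₁ + η₂, ?_, fun a b => ?_⟩
  · rw [e]
    refine add_mem (Submodule.smul_mem _ _ ?_) (P_le_Ord hη₂)
    unfold gf
    refine Submodule.sum_mem _ fun a _ => Submodule.sum_mem _ fun b _ => ?_
    rw [hy]
    exact Ord_mul (Ord_mul (Ord_mono (Nat.zero_le _) (gA_Ord h a b)) (iter_VOrd h2 h4 h5 m a))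
      (iter_VOrd h2 h4 h5 m b)
  · rw [e, map_add, Derivation.map_smul, map_add, Derivation.map_smul,
      P_hess (isOpen_jets S) m hη₂, add_zero, hy, gf_hess]

end

end Pool.Agent.Lib.H94J
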