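import Mathlib
import Pool.Agent.Lib.H99JetCalc.Calc

/-!
# Necessity: the first three orders of the conservation equation
-/

set_option autoImplicit false

namespace Pool.Agent.Lib.H94J

open Pool.Agent.Lib.H99JetCalc

variable {𝕜 A : Type*} [Field 𝕜] [CommRing A] [Algebra 𝕜 A] {N : ℕ}

/-- A third order system `u_t = u_3 + 3 α(u_1, u_2) + …`, abstractly. -/
structure Sys (J : JetCalc 𝕜 A N) where
  F : Fin N → A
  al : Fin N → Fin N → Fin N → A
  al_symm : ∀ i j k, al i j k = al i k j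
  al_pd : ∀ n c i j k, 1 ≤ n → J.pd n c (al i j k) = 0
  F4 : ∀ n a i, 4 ≤ n → J.pd n a (F i) = 0
  F3 : ∀ a i, J.pd 3 a (F i) = if a = i then 1 else 0
  F2 : ∀ a i, J.pd 2 a (F i) = 3 * ∑ j, al i j a * J.X 1 j

namespace Sys

variable {J : JetCalc 𝕜 A N} (s : Sys J)

/-- the matrix `Γ(u_1)` -/
def G (i a : Fin N) : A := ∑ j, s.al i j a * J.X 1 j

/-- the matrix `∂F/∂u_2` -/
def P (i a : Fin N) : A := 3 * s.G i a

/-- the matrix `∂F/∂u_1` -/
def Q (i a : Fin N) : A := J.pd 1 a (s.F i)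

theorem F2' (a i : Fin N) : J.pd 2 a (s.F i) = s.P i a := s.F2 a i

theorem pd_three (n : ℕ) (c : Fin N) : J.pd n c (3 : A) = 0 := by
  have e : (3 : A) = ((3 : ℕ) : A) := Nat.cast_ofNat.symm
  rw [e]
  exact Derivation.map_natCast _ _

theorem pdG_one (c i a : Fin N) : J.pd 1 c (s.G i a) = s.al i c a := by
  unfold G
  simp only [map_sum, Derivation.leibniz, smul_eq_mul, J.pd_X, s.al_pd 1 _ _ _ _ le_rfl, true_and,
    mul_zero, add_zero, mul_ite, mul_one, Finset.sum_ite_eq, Finset.mem_univ, if_true]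

theorem pdG_two (n : ℕ) (hn : 2 ≤ n) (c i a : Fin N) : J.pd n c (s.G i a) = 0 := by
  unfold G
  have h1 : n ≠ 1 := by omega
  simp only [map_sum, Derivation.leibniz, smul_eq_mul, J.pd_X, s.al_pd n _ _ _ _ (by omega), h1,
    false_and, if_false, mul_zero, add_zero, Finset.sum_const_zero]

theorem pdP_one (c i a : Fin N) : J.pd 1 c (s.P i a) = 3 * s.al i c a := by
  unfold P
  rw [Derivation.leibniz, pd_three, s.pdG_one, smul_zero, add_zero, smul_eq_mul]

theorem pdP_two (n : ℕ) (hn : 2 ≤ n) (c i a : Fin N) : J.pd n c (s.P i a) = 0 := by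
  unfold P
  rw [Derivation.leibniz, pd_three, s.pdG_two n hn, smul_zero, smul_zero, add_zero]

theorem D_ite (p : Prop) [Decidable p] : J.D (if p then 1 else 0) = 0 := by
  split_ifs
  · exact Derivation.map_one_eq_zero _
  · exact map_zero _

theorem pd_ite (n : ℕ) (c : Fin N) (p : Prop) [Decidable p] : J.pd n c (if p then 1 else 0) = 0 := by
  split_ifs
  · exact Derivation.map_one_eq_zero _
  · exact map_zero _

/-- The three leading orders of `D^n F`. -/
theorem iterF (n : ℕ) : (∀ p, n + 3 < p → ∀ a i, J.pd p a ((J.D)^[n] (s.F i)) = 0) ∧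
    (∀ a i, J.pd (n + 3) a ((J.D)^[n] (s.F i)) = if a = i then 1 else 0) ∧
    (∀ a i, J.pd (n + 2) a ((J.D)^[n] (s.F i)) = s.P i a) ∧
    (∀ a i, J.pd (n + 1) a ((J.D)^[n] (s.F i)) = s.Q i a + (n : A) * J.D (s.P i a)) := by
  induction n with
  | zero =>
    refine ⟨fun p hp a i => s.F4 p a i (by omega), fun a i => s.F3 a i, fun a i => s.F2' a i,
      fun a i => ?_⟩
    show J.pd 1 a (s.F i) = _
    rw [Nat.cast_zero, zero_mul, add_zero]; rfl
  | succ n ih =>
    obtain ⟨h4, h3, h2, h1⟩ := ih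
    refine ⟨fun p hp a i => ?_, fun a i => ?_, fun a i => ?_, fun a i => ?_⟩
    · obtain ⟨p, rfl⟩ : ∃ p', p = p' + 1 := ⟨p - 1, by omega⟩
      rw [Function.iterate_succ_apply', J.pd_D_succ, h4 (p + 1) (by omega), h4 p (by omega),
        map_zero, add_zero]
    · rw [Function.iterate_succ_apply', show n + 1 + 3 = (n + 3) + 1 by ring, J.pd_D_succ,
        h4 (n + 3 + 1) (by omega), h3, map_zero, zero_add]
    · rw [Function.iterate_succ_apply', show n + 1 + 2 = (n + 2) + 1 by ring, J.pd_D_succ,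
        show n + 2 + 1 = n + 3 by ring, h3, h2, D_ite, zero_add]
    · rw [Function.iterate_succ_apply', J.pd_D_succ, show n + 1 + 1 = n + 2 by ring, h2, h1]
      push_cast
      ring

/-- the evolutionary derivative of `ρ` (of order `≤ k`) along the system -/
def Dt (k : ℕ) (ρ : A) : A :=
  ∑ n ∈ Finset.range (k + 1), ∑ i, J.pd n i ρ * (J.D)^[n] (s.F i)

theorem pd_Dt {k : ℕ} {ρ : A} (hρ : ∀ n, k < n → ∀ i, J.pd n i ρ = 0) (p : ℕ) (hp : k < p)
    (a : Fin N) : J.pd p a (s.Dt k ρ) =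
      ∑ n ∈ Finset.range (k + 1), ∑ i, J.pd n i ρ * J.pd p a ((J.D)^[n] (s.F i)) := by
  unfold Dt
  rw [map_sum]
  refine Finset.sum_congr rfl fun n _ => ?_
  rw [map_sum]
  refine Finset.sum_congr rfl fun i _ => ?_
  rw [Derivation.leibniz, J.pd_comm p a n i, hρ p hp a, map_zero, smul_zero, add_zero, smul_eq_mul]

theorem pd_Dt4 {k : ℕ} {ρ : A} (hρ : ∀ n, k < n → ∀ i, J.pd n i ρ = 0) (p : ℕ) (hp : k + 3 < p)
    (a : Fin N) : J.pd p a (s.Dt k ρ) = 0 := by
  rw [s.pd_Dt hρ p (by omega)]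
  refine Finset.sum_eq_zero fun n hn => Finset.sum_eq_zero fun i _ => ?_
  have hn' : n < k + 1 := Finset.mem_range.mp hn
  rw [(s.iterF n).1 p (by omega), mul_zero]

theorem pd_Dt3 {k : ℕ} {ρ : A} (hρ : ∀ n, k < n → ∀ i, J.pd n i ρ = 0) (a : Fin N) :
    J.pd (k + 3) a (s.Dt k ρ) = J.pd k a ρ := by
  rw [s.pd_Dt hρ (k + 3) (by omega), Finset.sum_eq_single_of_mem k (by simp)]
  · simp only [(s.iterF k).2.1, mul_ite, mul_one, mul_zero, Finset.sum_ite_eq, Finset.mem_univ,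
      if_true]
  · intro n hn hnk
    refine Finset.sum_eq_zero fun i _ => ?_
    have hn' : n < k + 1 := Finset.mem_range.mp hn
    rw [(s.iterF n).1 (k + 3) (by omega), mul_zero]

theorem pd_Dt2 {K : ℕ} {ρ : A} (hρ : ∀ n, K + 1 < n → ∀ i, J.pd n i ρ = 0) (a : Fin N) :
    J.pd (K + 3) a (s.Dt (K + 1) ρ) = J.pd K a ρ + ∑ i, J.pd (K + 1) i ρ * s.P i a := by
  rw [s.pd_Dt hρ (K + 3) (by omega), Finset.sum_range_succ, Finset.sum_range_succ,
    Finset.sum_eq_zero]
  · rw [zero_add]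
    congr 1
    · simp only [(s.iterF K).2.1, mul_ite, mul_one, mul_zero, Finset.sum_ite_eq, Finset.mem_univ,
        if_true]
    · refine Finset.sum_congr rfl fun i _ => ?_
      have := (s.iterF (K + 1)).2.2.1 a i
      rw [show K + 1 + 2 = K + 3 by ring] at this
      rw [this]
  · intro n hn
    have hn' : n < K := Finset.mem_range.mp hn
    refine Finset.sum_eq_zero fun i _ => ?_
    rw [(s.iterF n).1 (K + 3) (by omega), mul_zero]

theorem pd_Dt1 {K : ℕ} {ρ : A} (hρ : ∀ n, K + 1 < n → ∀ i, J.pd n i ρ = 0) (a : Fin N) :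
    J.pd (K + 2) a (s.Dt (K + 1) ρ) = J.low K a ρ + ∑ i, J.pd K i ρ * s.P i a +
      ∑ i, J.pd (K + 1) i ρ * (s.Q i a + ((K : A) + 1) * J.D (s.P i a)) := by
  rw [s.pd_Dt hρ (K + 2) (by omega), Finset.sum_range_succ, Finset.sum_range_succ]
  have e1 : ∑ i, J.pd K i ρ * J.pd (K + 2) a ((J.D)^[K] (s.F i)) = ∑ i, J.pd K i ρ * s.P i a :=
    Finset.sum_congr rfl fun i _ => by rw [(s.iterF K).2.2.1]
  have e2 : ∑ i, J.pd (K + 1) i ρ * J.pd (K + 2) a ((J.D)^[K + 1] (s.F i)) =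
      ∑ i, J.pd (K + 1) i ρ * (s.Q i a + ((K : A) + 1) * J.D (s.P i a)) :=
    Finset.sum_congr rfl fun i _ => by
      have := (s.iterF (K + 1)).2.2.2 a i
      rw [show K + 1 + 1 = K + 2 by ring, Nat.cast_add, Nat.cast_one] at this
      rw [this]
  rw [e1, e2]
  congr 2
  cases K with
  | zero => simp [JetCalc.low]
  | succ K =>
    simp only [JetCalc.low]
    rw [Finset.sum_range_succ, Finset.sum_eq_zero]
    · rw [zero_add]
      have : ∀ i, J.pd (K + 1 + 2) a ((J.D)^[K] (s.F i)) = if a = i then 1 else 0 := fun i => by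
        have := (s.iterF K).2.1 a i
        rw [show K + 1 + 2 = K + 3 by ring]; exact this
      simp only [this, mul_ite, mul_one, mul_zero, Finset.sum_ite_eq, Finset.mem_univ, if_true]
    · intro n hn
      have hn' : n < K := Finset.mem_range.mp hn
      refine Finset.sum_eq_zero fun i _ => ?_
      rw [(s.iterF n).1 (K + 1 + 2) (by omega), mul_zero]

end Sys

end Pool.Agent.Lib.H94J
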