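import Pool.Agent.Lib.H94J.N1

/-!
# Necessity: the Hessian is parallel
-/

set_option autoImplicit false

namespace Pool.Agent.Lib.H94J

open Pool.Agent.Lib.H99JetCalc

variable {𝕜 A : Type*} [Field 𝕜] [CommRing A] [Algebra 𝕜 A] {N : ℕ}

namespace Sys

variable {J : JetCalc 𝕜 A N} (s : Sys J)

/-- `low K a = pd (K-1) a` and its commutation. -/
theorem low_zero (K : ℕ) (a : Fin N) : J.low K a 0 = 0 := by
  cases K with
  | zero => rfl
  | succ K => exact map_zero _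

theorem pdP_symm (n : ℕ) (hn : 1 ≤ n) (b a i : Fin N) : J.pd n b (s.P i a) = J.pd n a (s.P i b) := by
  rcases Nat.lt_or_ge 1 n with h | h
  · rw [s.pdP_two n h, s.pdP_two n h]
  · have : n = 1 := by omega
    rw [this, s.pdP_one, s.pdP_one, s.al_symm i b a]

theorem pdQ (n : ℕ) (b a i : Fin N) : J.pd n b (s.Q i a) = J.pd 1 a (J.pd n b (s.F i)) :=
  J.pd_comm _ _ _ _ _

theorem pdQ_three (n : ℕ) (hn : 3 ≤ n) (b a i : Fin N) : J.pd n b (s.Q i a) = 0 := by
  rw [s.pdQ]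
  rcases Nat.lt_or_ge 3 n with h | h
  · rw [s.F4 n b i h, map_zero]
  · have : n = 3 := by omega
    rw [this, s.F3, pd_ite]

theorem pdQ_two (b a i : Fin N) : J.pd 2 b (s.Q i a) = 3 * s.al i a b := by
  rw [s.pdQ, s.F2', s.pdP_one]

theorem pdDP_three (n : ℕ) (hn : 3 ≤ n) (b a i : Fin N) : J.pd n b (J.D (s.P i a)) = 0 := by
  obtain ⟨n, rfl⟩ : ∃ n', n = n' + 1 := ⟨n - 1, by omega⟩
  rw [J.pd_D_succ, s.pdP_two _ (by omega), s.pdP_two _ (by omega), map_zero, add_zero]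

theorem pdDP_two (b a i : Fin N) : J.pd 2 b (J.D (s.P i a)) = 3 * s.al i b a := by
  rw [J.pd_D_succ, s.pdP_two _ (by omega), s.pdP_one, map_zero, zero_add]

theorem pdDP_one (b a i : Fin N) : J.pd 1 b (J.D (s.P i a)) =
    J.D (3 * s.al i b a) + J.pd 0 b (s.P i a) := by
  rw [J.pd_D_succ, s.pdP_one]

/-- The derivative of `Q + (K+1) DP` in the direction of `u_{K+2}`. -/
theorem pdR_two (K : ℕ) (b a i : Fin N) :
    J.pd (K + 2) b (s.Q i a + ((K : A) + 1) * J.D (s.P i a)) = 2 * J.pd (K + 1) b (s.P i a) := by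
  have hK : ∀ (n : ℕ) (c : Fin N), J.pd n c ((K : A) + 1) = 0 := by
    intro n c
    have : (K : A) + 1 = ((K + 1 : ℕ) : A) := by push_cast; ring
    rw [this]
    exact Derivation.map_natCast _ _
  rw [map_add, Derivation.leibniz, hK, smul_zero, add_zero, smul_eq_mul]
  cases K with
  | zero =>
    rw [s.pdQ_two, s.pdDP_two, s.pdP_one, s.al_symm i a b, Nat.cast_zero]
    ring
  | succ K =>
    rw [s.pdQ_three _ (by omega), s.pdDP_three _ (by omega), s.pdP_two _ (by omega)]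
    ring

/-- The antisymmetric part of the derivative of `Q + (K+1) DP` in the direction of `u_{K+1}`. -/
theorem pdR_one (K : ℕ) (b a i : Fin N) :
    J.pd (K + 1) b (s.Q i a + ((K : A) + 1) * J.D (s.P i a))
      - J.pd (K + 1) a (s.Q i b + ((K : A) + 1) * J.D (s.P i b)) =
    J.pd K b (s.P i a) - J.pd K a (s.P i b) := by
  have hK : ∀ (n : ℕ) (c : Fin N), J.pd n c ((K : A) + 1) = 0 := by
    intro n c
    have : (K : A) + 1 = ((K + 1 : ℕ) : A) := by push_cast; ring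
    rw [this]
    exact Derivation.map_natCast _ _
  rw [map_add, map_add, Derivation.leibniz, Derivation.leibniz, hK, hK, smul_zero, smul_zero,
    add_zero, add_zero, smul_eq_mul, smul_eq_mul]
  rcases K with _ | _ | K
  · have e : J.pd (0 + 1) b (s.Q i a) = J.pd (0 + 1) a (s.Q i b) := J.pd_comm _ _ _ _ _
    have e1 := s.pdDP_one b a i
    have e2 := s.pdDP_one a b i
    rw [s.al_symm i b a] at e1
    rw [e, show (0 + 1 : ℕ) = 1 from rfl, e1, e2, Nat.cast_zero]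
    ring
  · have e1 := s.pdDP_two b a i
    have e2 := s.pdDP_two a b i
    have e3 := s.pdQ_two b a i
    have e4 := s.pdQ_two a b i
    rw [show (0 + 1 + 1 : ℕ) = 2 from rfl, e1, e2, e3, e4, show (0 + 1 : ℕ) = 1 from rfl,
      s.pdP_one, s.pdP_one, s.al_symm i b a]
    ring
  · rw [s.pdQ_three _ (by omega), s.pdQ_three _ (by omega), s.pdDP_three _ (by omega),
      s.pdDP_three _ (by omega), s.pdP_two _ (by omega), s.pdP_two _ (by omega)]
    ring

/-- the Hessian -/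
def H (J : JetCalc 𝕜 A N) (K : ℕ) (ρ : A) (a b : Fin N) : A := J.pd (K + 1) b (J.pd (K + 1) a ρ)

theorem H_symm (K : ℕ) (ρ : A) (a b : Fin N) : H J K ρ a b = H J K ρ b a := J.pd_comm _ _ _ _ _

/-- the antisymmetric second derivatives -/
def Z (J : JetCalc 𝕜 A N) (K : ℕ) (ρ : A) (a b : Fin N) : A :=
  J.pd (K + 1) b (J.pd K a ρ) - J.pd (K + 1) a (J.pd K b ρ)

section law

variable {K : ℕ} {ρ σ : A} (hρ : ∀ n, K + 1 < n → ∀ i, J.pd n i ρ = 0)
  (h : s.Dt (K + 1) ρ = J.D σ)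

include hρ h

theorem sig4 : ∀ p, K + 4 ≤ p → ∀ a, J.pd p a σ = 0 := by
  refine J.pd_eq_zero_of_pd_D ?_
  intro p hp a
  rw [← h]
  exact s.pd_Dt4 hρ p (by omega) a

theorem sig3 (a : Fin N) : J.pd (K + 3) a σ = J.pd (K + 1) a ρ := by
  have h1 := J.pd_D_succ (K + 3) a σ
  rw [← h, show K + 3 + 1 = K + 1 + 3 by ring, s.pd_Dt3 hρ,
    s.sig4 hρ h (K + 1 + 3) (by omega), map_zero, zero_add] at h1
  exact h1.symm

theorem sig2 (a : Fin N) : J.pd (K + 2) a σ =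
    J.pd K a ρ + ∑ i, J.pd (K + 1) i ρ * s.P i a - J.D (J.pd (K + 1) a ρ) := by
  have h1 := J.pd_D_succ (K + 2) a σ
  rw [← h, show K + 2 + 1 = K + 3 by ring, s.pd_Dt2 hρ, s.sig3 hρ h] at h1
  rw [h1]; ring

theorem sig1 (a : Fin N) : J.low K a ρ + ∑ i, J.pd K i ρ * s.P i a +
      ∑ i, J.pd (K + 1) i ρ * (s.Q i a + ((K : A) + 1) * J.D (s.P i a)) =
    J.D (J.pd (K + 2) a σ) + J.pd (K + 1) a σ := by
  have h1 := J.pd_D_succ (K + 1) a σ
  rw [← h, show K + 1 + 1 = K + 2 by ring, s.pd_Dt1 hρ] at h1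
  exact h1

omit h in
theorem rho0 (n : ℕ) (hn : K + 1 < n) (i : Fin N) (m : ℕ) (l : Fin N) :
    J.pd n i (J.pd m l ρ) = 0 := by
  rw [J.pd_comm, hρ n hn, map_zero]

theorem h22 (a b : Fin N) : J.pd (K + 2) b (J.pd (K + 2) a σ) = - H J K ρ a b := by
  rw [s.sig2 hρ h, map_sub, map_add, rho0 hρ (K + 2) (by omega), J.pd_D_succ,
    rho0 hρ (K + 1 + 1) (by omega), map_zero, map_sum, Finset.sum_eq_zero]
  · unfold H; ring
  · intro i _
    rw [Derivation.leibniz, rho0 hρ (K + 2) (by omega), s.pdP_two _ (by omega), smul_zero,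
      smul_zero, add_zero]

theorem h21 (a b : Fin N) : J.pd (K + 1) b (J.pd (K + 2) a σ) =
    J.pd (K + 1) b (J.pd K a ρ) + (∑ i, H J K ρ i b * s.P i a
      + ∑ i, J.pd (K + 1) i ρ * J.pd (K + 1) b (s.P i a))
    - J.D (H J K ρ a b) - J.pd K b (J.pd (K + 1) a ρ) := by
  rw [s.sig2 hρ h, map_sub, map_add, J.pd_D_succ, map_sum]
  have : ∑ i, J.pd (K + 1) b (J.pd (K + 1) i ρ * s.P i a) =
      ∑ i, H J K ρ i b * s.P i a + ∑ i, J.pd (K + 1) i ρ * J.pd (K + 1) b (s.P i a) := by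
    rw [← Finset.sum_add_distrib]
    refine Finset.sum_congr rfl fun i _ => ?_
    rw [Derivation.leibniz, smul_eq_mul, smul_eq_mul]
    unfold H; ring
  rw [this]
  unfold H
  ring

/-- N4: the equation for `D H`. -/
theorem DH (a b : Fin N) : 3 * J.D (H J K ρ a b) =
    ∑ i, H J K ρ i b * s.P i a + ∑ i, H J K ρ i a * s.P i b := by
  have h1 := congrArg (J.pd (K + 2) b) (s.sig1 hρ h a)
  rw [map_add, map_add, map_add, J.pd_low, hρ (K + 2) (by omega), low_zero, J.pd_D_succ,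
    show K + 1 + 1 = K + 2 by ring, s.h22 hρ h, s.h21 hρ h, J.pd_comm (K + 2) b (K + 1) a σ,
    s.h21 hρ h, map_neg, map_sum, map_sum] at h1
  have e1 : ∑ i, J.pd (K + 2) b (J.pd K i ρ * s.P i a) = 0 := by
    refine Finset.sum_eq_zero fun i _ => ?_
    rw [Derivation.leibniz, rho0 hρ (K + 2) (by omega), s.pdP_two _ (by omega), smul_zero,
      smul_zero, add_zero]
  have e2 : ∑ i, J.pd (K + 2) b (J.pd (K + 1) i ρ *
      (s.Q i a + ((K : A) + 1) * J.D (s.P i a))) =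
      ∑ i, J.pd (K + 1) i ρ * (2 * J.pd (K + 1) b (s.P i a)) := by
    refine Finset.sum_congr rfl fun i _ => ?_
    rw [Derivation.leibniz, rho0 hρ (K + 2) (by omega), s.pdR_two, smul_zero, add_zero, smul_eq_mul]
  have e3 : ∑ i, J.pd (K + 1) i ρ * J.pd (K + 1) a (s.P i b) =
      ∑ i, J.pd (K + 1) i ρ * J.pd (K + 1) b (s.P i a) :=
    Finset.sum_congr rfl fun i _ => by rw [s.pdP_symm (K + 1) (by omega) a b i]
  have e4 : ∑ i, J.pd (K + 1) i ρ * (2 * J.pd (K + 1) b (s.P i a)) =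
      2 * ∑ i, J.pd (K + 1) i ρ * J.pd (K + 1) b (s.P i a) := by
    rw [Finset.mul_sum]
    refine Finset.sum_congr rfl fun i _ => by ring
  rw [e1, e2, e3, e4, H_symm K ρ b a] at h1
  have c1 : J.pd (K + 1) b (J.pd K a ρ) = J.pd K a (J.pd (K + 1) b ρ) := J.pd_comm _ _ _ _ _
  have c2 : J.pd (K + 1) a (J.pd K b ρ) = J.pd K b (J.pd (K + 1) a ρ) := J.pd_comm _ _ _ _ _
  rw [c1, c2] at h1
  linear_combination h1

end law

end Sys

end Pool.Agent.Lib.H94J
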