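import Pool.Agent.Lib.H94J.N2

/-!
# Necessity: the Hessian is a function of `u`, parallel; the third order
-/

set_option autoImplicit false

namespace Pool.Agent.Lib.H94J

open Pool.Agent.Lib.H99JetCalc

variable {𝕜 A : Type*} [Field 𝕜] [CharZero 𝕜] [CommRing A] [Algebra 𝕜 A] {N : ℕ}

namespace Sys

variable {J : JetCalc 𝕜 A N} (s : Sys J)

/-- division by a natural number -/
theorem cancel_nat (𝕜 : Type*) {A : Type*} [Field 𝕜] [CharZero 𝕜] [CommRing A] [Algebra 𝕜 A]
    (n : ℕ) (hn : n ≠ 0) {x : A} (h : (n : A) * x = 0) : x = 0 := by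
  have h1 : (n : 𝕜) • x = 0 := by
    rw [Algebra.smul_def, map_natCast]; exact h
  have h2 : ((n : 𝕜)⁻¹ * (n : 𝕜)) • x = 0 := by rw [mul_smul, h1, smul_zero]
  rwa [inv_mul_cancel₀ (by exact_mod_cast hn), one_smul] at h2

/-- A family of elements whose total derivatives have low order has order zero. -/
theorem order_zero {ι : Type*} [Fintype ι] (B : ι → A) (C : ι → A)
    (hC : ∀ x, C x = 3 * J.D (B x))
    (hB : ∀ q, 1 ≤ q → (∀ n, q < n → ∀ c x, J.pd n c (B x) = 0) →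
      ∀ c x, J.pd (q + 1) c (C x) = 0) :
    ∀ n, 1 ≤ n → ∀ c x, J.pd n c (B x) = 0 := by
  classical
  have hfin : ∃ k, ∀ n, k < n → ∀ c x, J.pd n c (B x) = 0 := by
    choose k hk using fun x => J.fin (B x)
    refine ⟨∑ x, k x, fun n hn c x => hk x n (lt_of_le_of_lt ?_ hn) c⟩
    exact Finset.single_le_sum (f := k) (fun _ _ => Nat.zero_le _) (Finset.mem_univ x)
  obtain ⟨k, hk⟩ := hfin
  have key : ∀ m, ∀ n, 1 ≤ n → k + 1 ≤ n + m → ∀ c x, J.pd n c (B x) = 0 := by
    intro m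
    induction m with
    | zero => intro n _ hn c x; exact hk n (by omega) c x
    | succ m ih =>
      intro n hn hm c x
      have h1 := hB n hn (fun p hp => ih p (by omega) (by omega)) c x
      have h2 : J.pd (n + 1) c (3 : A) = 0 := pd_three _ _
      rw [hC, Derivation.leibniz, h2, smul_zero, add_zero, smul_eq_mul, J.pd_D_succ,
        ih (n + 1) (by omega) (by omega), map_zero, zero_add] at h1
      exact cancel_nat 𝕜 3 (by norm_num) (by exact_mod_cast h1)
  intro n hn c x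
  exact key (k + 1) n hn (by omega) c x

section law

variable {K : ℕ} {ρ σ : A} (hρ : ∀ n, K + 1 < n → ∀ i, J.pd n i ρ = 0)
  (h : s.Dt (K + 1) ρ = J.D σ)

include hρ h

/-- The Hessian is a function of `u`. -/
theorem H_order : ∀ n, 1 ≤ n → ∀ c a b, J.pd n c (H J K ρ a b) = 0 := by
  have := order_zero (J := J) (fun x : Fin N × Fin N => H J K ρ x.1 x.2)
    (fun x => ∑ i, H J K ρ i x.2 * s.P i x.1 + ∑ i, H J K ρ i x.1 * s.P i x.2)
    (fun x => (s.DH hρ h x.1 x.2).symm) (fun q hq hB c x => by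
      have hB' : ∀ i j, J.pd (q + 1) c (H J K ρ i j) = 0 := fun i j =>
        hB (q + 1) (by omega) c (i, j)
      rw [map_add, map_sum, map_sum, Finset.sum_eq_zero, Finset.sum_eq_zero, add_zero]
      · intro i _
        rw [Derivation.leibniz, hB', s.pdP_two _ (by omega), smul_zero, smul_zero, add_zero]
      · intro i _
        rw [Derivation.leibniz, hB', s.pdP_two _ (by omega), smul_zero, smul_zero, add_zero])
  intro n hn c a b
  exact this n hn c (a, b)

/-- The Hessian is parallel. -/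
theorem H_parallel (c a b : Fin N) : J.pd 0 c (H J K ρ a b) =
    ∑ i, (H J K ρ i b * s.al i c a + H J K ρ i a * s.al i c b) := by
  have h1 := congrArg (J.pd 1 c) (s.DH hρ h a b)
  have h0 : ∀ i j, J.pd 1 c (H J K ρ i j) = 0 := fun i j => s.H_order hρ h 1 le_rfl c i j
  have e : J.pd 1 c (J.D (H J K ρ a b)) = J.pd 0 c (H J K ρ a b) := by
    have := J.pd_D_succ 0 c (H J K ρ a b)
    rw [show 0 + 1 = 1 from rfl, h0, map_zero, zero_add] at this
    exact this
  rw [Derivation.leibniz, pd_three, smul_zero, add_zero, smul_eq_mul, e, map_add, map_sum,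
    map_sum] at h1
  have e1 : ∀ x y, J.pd 1 c (H J K ρ x y * s.P x a) = 3 * (H J K ρ x y * s.al x c a) := by
    intro x y
    rw [Derivation.leibniz, h0, s.pdP_one, smul_zero, add_zero, smul_eq_mul]; ring
  have e2 : ∀ x y, J.pd 1 c (H J K ρ x y * s.P x b) = 3 * (H J K ρ x y * s.al x c b) := by
    intro x y
    rw [Derivation.leibniz, h0, s.pdP_one, smul_zero, add_zero, smul_eq_mul]; ring
  simp only [e1, e2, ← Finset.mul_sum] at h1
  have h2 : (3 : ℕ) * (J.pd 0 c (H J K ρ a b) -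
      ∑ i, (H J K ρ i b * s.al i c a + H J K ρ i a * s.al i c b)) = 0 := by
    rw [Finset.sum_add_distrib]
    push_cast
    linear_combination h1
  exact sub_eq_zero.mp (cancel_nat 𝕜 3 (by norm_num) h2)

omit [CharZero 𝕜] in
/-- N5: the third order. -/
theorem third (a b : Fin N) :
    ∑ i, Z J K ρ i b * s.P i a - ∑ i, Z J K ρ i a * s.P i b
      + (∑ i, H J K ρ i b * (s.Q i a + ((K : A) + 1) * J.D (s.P i a))
        - ∑ i, H J K ρ i a * (s.Q i b + ((K : A) + 1) * J.D (s.P i b))) =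
    3 * J.D (Z J K ρ a b) + J.D (∑ i, H J K ρ i b * s.P i a - ∑ i, H J K ρ i a * s.P i b) := by
  obtain ⟨R, hR⟩ : ∃ R : Fin N → Fin N → A,
    ∀ i a, s.Q i a + ((K : A) + 1) * J.D (s.P i a) = R i a := ⟨_, fun _ _ => rfl⟩
  have s1' := fun a => s.sig1 hρ h a
  have r1' := fun a b i => s.pdR_one K b a i
  simp only [hR] at s1' r1' ⊢
  have G1 : ∀ a b, J.pd (K + 1) b (J.low K a ρ) +
      (∑ i, J.pd (K + 1) b (J.pd K i ρ) * s.P i a
        + ∑ i, J.pd K i ρ * J.pd (K + 1) b (s.P i a))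
      + (∑ i, H J K ρ i b * R i a + ∑ i, J.pd (K + 1) i ρ * J.pd (K + 1) b (R i a)) =
      J.D (J.pd (K + 1) b (J.pd (K + 2) a σ)) + J.pd K b (J.pd (K + 2) a σ)
        + J.pd (K + 1) b (J.pd (K + 1) a σ) := by
    intro a b
    have h1 := congrArg (J.pd (K + 1) b) (s1' a)
    rw [map_add, map_add, map_add, J.pd_D_succ, map_sum, map_sum] at h1
    rw [← h1, ← Finset.sum_add_distrib, ← Finset.sum_add_distrib]
    congr 1
    · congr 1
      refine Finset.sum_congr rfl fun i _ => ?_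
      rw [Derivation.leibniz, smul_eq_mul, smul_eq_mul]; ring
    · refine Finset.sum_congr rfl fun i _ => ?_
      rw [Derivation.leibniz, smul_eq_mul, smul_eq_mul]; unfold H; ring
  have G2 : ∀ a b, J.pd K b (J.pd (K + 2) a σ) = J.pd K b (J.pd K a ρ)
      + (∑ i, J.pd K b (J.pd (K + 1) i ρ) * s.P i a
        + ∑ i, J.pd (K + 1) i ρ * J.pd K b (s.P i a))
      - (J.D (J.pd K b (J.pd (K + 1) a ρ)) + J.low K b (J.pd (K + 1) a ρ)) := by
    intro a b
    rw [s.sig2 hρ h, map_sub, map_add, J.pd_D, map_sum, ← Finset.sum_add_distrib]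
    congr 2
    refine Finset.sum_congr rfl fun i _ => ?_
    rw [Derivation.leibniz, smul_eq_mul, smul_eq_mul]; ring
  have ga := G1 a b
  have gb := G1 b a
  have ha := G2 a b
  have hb := G2 b a
  have s1 : ∑ i, J.pd K i ρ * J.pd (K + 1) a (s.P i b) =
      ∑ i, J.pd K i ρ * J.pd (K + 1) b (s.P i a) :=
    Finset.sum_congr rfl fun i _ => by rw [s.pdP_symm (K + 1) (by omega) a b i]
  have s2 : ∑ i, J.pd (K + 1) i ρ * J.pd (K + 1) b (R i a)
      - ∑ i, J.pd (K + 1) i ρ * J.pd (K + 1) a (R i b) =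
      ∑ i, J.pd (K + 1) i ρ * J.pd K b (s.P i a) - ∑ i, J.pd (K + 1) i ρ * J.pd K a (s.P i b) := by
    rw [← Finset.sum_sub_distrib, ← Finset.sum_sub_distrib]
    refine Finset.sum_congr rfl fun i _ => ?_
    rw [← mul_sub, ← mul_sub, r1']
  have s3 : J.pd (K + 1) b (J.low K a ρ) = J.low K a (J.pd (K + 1) b ρ) := J.pd_low _ _ _ _ _
  have s4 : J.pd (K + 1) a (J.low K b ρ) = J.low K b (J.pd (K + 1) a ρ) := J.pd_low _ _ _ _ _
  have s5 : J.pd K b (J.pd K a ρ) = J.pd K a (J.pd K b ρ) := J.pd_comm _ _ _ _ _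
  have s6 : J.pd (K + 1) b (J.pd (K + 1) a σ) = J.pd (K + 1) a (J.pd (K + 1) b σ) :=
    J.pd_comm _ _ _ _ _
  have s7 : ∑ i, J.pd (K + 1) i ρ * J.pd (K + 1) a (s.P i b) =
      ∑ i, J.pd (K + 1) i ρ * J.pd (K + 1) b (s.P i a) :=
    Finset.sum_congr rfl fun i _ => by rw [s.pdP_symm (K + 1) (by omega) a b i]
  have ka := s.h21 hρ h a b
  have kb := s.h21 hρ h b a
  have c1 : ∀ a b, J.pd K b (J.pd (K + 1) a ρ) = J.pd (K + 1) a (J.pd K b ρ) :=
    fun _ _ => J.pd_comm _ _ _ _ _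
  rw [H_symm K ρ b a, s7] at kb
  rw [ka] at ga
  rw [kb] at gb
  have z1 : ∑ i, Z J K ρ i b * s.P i a = ∑ i, J.pd (K + 1) b (J.pd K i ρ) * s.P i a
      - ∑ i, J.pd (K + 1) i (J.pd K b ρ) * s.P i a := by
    rw [← Finset.sum_sub_distrib]
    refine Finset.sum_congr rfl fun i _ => ?_
    unfold Z; ring
  have z2 : ∑ i, Z J K ρ i a * s.P i b = ∑ i, J.pd (K + 1) a (J.pd K i ρ) * s.P i b
      - ∑ i, J.pd (K + 1) i (J.pd K a ρ) * s.P i b := by
    rw [← Finset.sum_sub_distrib]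
    refine Finset.sum_congr rfl fun i _ => ?_
    unfold Z; ring
  rw [z1, z2]
  simp only [c1] at ga gb ha hb
  unfold Z
  simp only [map_add, map_sub] at ga gb ha hb ⊢
  linear_combination ga - gb + ha - hb + s1 - s2 - s3 + s4 + s5 + s6

end law

end Sys

end Pool.Agent.Lib.H94J
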