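import Pool.Agent.Lib.H94J.N3

/-!
# Necessity: covariant form of the third order; the symmetry of the Hessian
-/

set_option autoImplicit false

namespace Pool.Agent.Lib.H94J

open Pool.Agent.Lib.H99JetCalc

variable {𝕜 A : Type*} [Field 𝕜] [CharZero 𝕜] [CommRing A] [Algebra 𝕜 A] {N : ℕ}

namespace Sys

variable {J : JetCalc 𝕜 A N} (s : Sys J)

/-- the tensor `Ψ` -/
def Psi (i a : Fin N) : A := s.Q i a - 3 * J.D (s.G i a) - 3 * ∑ t, s.G i t * s.G t a

/-- `H Γ` -/
def Y (K : ℕ) (ρ : A) (a b : Fin N) : A := ∑ i, H J K ρ i b * s.G i a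

/-- the covariant version of `Z` -/
def Zt (K : ℕ) (ρ : A) (a b : Fin N) : A :=
  Z J K ρ a b - ((K : A) + 1) * (s.Y K ρ a b - s.Y K ρ b a)

section law

variable {K : ℕ} {ρ σ : A} (hρ : ∀ n, K + 1 < n → ∀ i, J.pd n i ρ = 0)
  (h : s.Dt (K + 1) ρ = J.D σ)

include hρ h

theorem DH' (a b : Fin N) : J.D (H J K ρ a b) =
    ∑ i, (H J K ρ i b * s.G i a + H J K ρ i a * s.G i b) := by
  have h1 := s.DH hρ h a b
  have h2 : (3 : ℕ) * (J.D (H J K ρ a b) -
      ∑ i, (H J K ρ i b * s.G i a + H J K ρ i a * s.G i b)) = 0 := by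
    rw [Finset.sum_add_distrib]
    push_cast
    have e1 : ∑ i, H J K ρ i b * s.P i a = 3 * ∑ i, H J K ρ i b * s.G i a := by
      rw [Finset.mul_sum]
      refine Finset.sum_congr rfl fun i _ => ?_
      unfold P; ring
    have e2 : ∑ i, H J K ρ i a * s.P i b = 3 * ∑ i, H J K ρ i a * s.G i b := by
      rw [Finset.mul_sum]
      refine Finset.sum_congr rfl fun i _ => ?_
      unfold P; ring
    rw [e1, e2] at h1
    linear_combination h1
  exact sub_eq_zero.mp (cancel_nat 𝕜 3 (by norm_num) h2)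

/-- N6: the covariant form of the third order. -/
theorem nabZ (a b : Fin N) :
    3 * J.D (s.Zt K ρ a b) - 3 * (∑ i, s.Zt K ρ i b * s.G i a - ∑ i, s.Zt K ρ i a * s.G i b) =
      ∑ i, H J K ρ i b * s.Psi i a - ∑ i, H J K ρ i a * s.Psi i b := by
  obtain ⟨k, hk⟩ : ∃ k : A, k = (K : A) + 1 := ⟨_, rfl⟩
  have hDk : J.D k = 0 := by
    rw [hk, show (K : A) + 1 = ((K + 1 : ℕ) : A) by push_cast; ring]
    exact Derivation.map_natCast _ _
  obtain ⟨T1, hT1⟩ : ∃ T1 : Fin N → Fin N → A, ∀ a b, T1 a b = ∑ i, H J K ρ i b * J.D (s.G i a) :=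
    ⟨_, fun _ _ => rfl⟩
  obtain ⟨GG, hGG⟩ : ∃ GG : Fin N → Fin N → A,
    ∀ a b, GG a b = ∑ i, H J K ρ i b * ∑ t, s.G i t * s.G t a := ⟨_, fun _ _ => rfl⟩
  obtain ⟨M, hM⟩ : ∃ M : Fin N → Fin N → A,
    ∀ a b, M a b = ∑ i, ∑ t, H J K ρ t i * s.G t b * s.G i a := ⟨_, fun _ _ => rfl⟩
  obtain ⟨zG, hzG⟩ : ∃ zG : Fin N → Fin N → A, ∀ a b, zG a b = ∑ i, Z J K ρ i b * s.G i a :=
    ⟨_, fun _ _ => rfl⟩
  obtain ⟨HQ, hHQ⟩ : ∃ HQ : Fin N → Fin N → A, ∀ a b, HQ a b = ∑ i, H J K ρ i b * s.Q i a :=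
    ⟨_, fun _ _ => rfl⟩
  have hMs : M a b = M b a := by
    rw [hM, hM, Finset.sum_comm]
    refine Finset.sum_congr rfl fun i _ => Finset.sum_congr rfl fun t _ => ?_
    rw [H_symm K ρ i t]; ring
  have hYG1 : ∀ a b, ∑ i, s.Y K ρ i b * s.G i a = GG a b := by
    intro a b
    rw [hGG]
    unfold Y
    simp only [Finset.sum_mul, Finset.mul_sum]
    rw [Finset.sum_comm]
    refine Finset.sum_congr rfl fun i _ => Finset.sum_congr rfl fun t _ => ?_
    ring
  have hYG2 : ∀ a b, ∑ i, s.Y K ρ b i * s.G i a = M a b := by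
    intro a b
    rw [hM]
    unfold Y
    simp only [Finset.sum_mul]
  have hDY : ∀ a b, J.D (s.Y K ρ a b) = GG a b + M a b + T1 a b := by
    intro a b
    have e : J.D (s.Y K ρ a b) = ∑ i, J.D (H J K ρ i b) * s.G i a + T1 a b := by
      rw [hT1]
      unfold Y
      rw [map_sum, ← Finset.sum_add_distrib]
      refine Finset.sum_congr rfl fun i _ => ?_
      rw [Derivation.leibniz, smul_eq_mul, smul_eq_mul]; ring
    rw [e]
    congr 1
    have e2 : ∀ i, J.D (H J K ρ i b) * s.G i a =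
        ∑ t, H J K ρ t b * s.G t i * s.G i a + ∑ t, H J K ρ t i * s.G t b * s.G i a := by
      intro i
      rw [s.DH' hρ h, Finset.sum_mul, ← Finset.sum_add_distrib]
      refine Finset.sum_congr rfl fun t _ => ?_
      ring
    simp only [e2, Finset.sum_add_distrib]
    rw [hM, hGG]
    congr 1
    rw [Finset.sum_comm]
    refine Finset.sum_congr rfl fun i _ => ?_
    rw [Finset.mul_sum]
    refine Finset.sum_congr rfl fun t _ => ?_
    ring
  have hZtG : ∀ a b, ∑ i, s.Zt K ρ i b * s.G i a = zG a b - k * (GG a b - M a b) := by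
    intro a b
    rw [← hYG1, ← hYG2, hzG, ← Finset.sum_sub_distrib, Finset.mul_sum, ← Finset.sum_sub_distrib]
    refine Finset.sum_congr rfl fun i _ => ?_
    unfold Zt
    rw [hk]; ring
  have hPsi : ∀ a b, ∑ i, H J K ρ i b * s.Psi i a = HQ a b - 3 * T1 a b - 3 * GG a b := by
    intro a b
    rw [hHQ, hT1, hGG, Finset.mul_sum, Finset.mul_sum, ← Finset.sum_sub_distrib,
      ← Finset.sum_sub_distrib]
    refine Finset.sum_congr rfl fun i _ => ?_
    unfold Psi; ring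
  have t := s.third hρ h a b
  have f1 : ∀ a b, ∑ i, Z J K ρ i b * s.P i a = 3 * zG a b := by
    intro a b
    rw [hzG, Finset.mul_sum]
    refine Finset.sum_congr rfl fun i _ => ?_
    unfold P; ring
  have f2 : ∀ a b, ∑ i, H J K ρ i b * (s.Q i a + ((K : A) + 1) * J.D (s.P i a)) =
      HQ a b + 3 * k * T1 a b := by
    intro a b
    rw [hHQ, hT1, Finset.mul_sum, ← Finset.sum_add_distrib]
    refine Finset.sum_congr rfl fun i _ => ?_
    have : J.D (s.P i a) = 3 * J.D (s.G i a) := by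
      unfold P
      have h3 : J.D (3 : A) = 0 := by
        have e : (3 : A) = ((3 : ℕ) : A) := Nat.cast_ofNat.symm
        rw [e]
        exact Derivation.map_natCast _ _
      rw [Derivation.leibniz, h3, smul_zero, add_zero, smul_eq_mul]
    rw [this, hk]; ring
  have f3 : ∀ a b, ∑ i, H J K ρ i b * s.P i a = 3 * s.Y K ρ a b := by
    intro a b
    unfold Y P
    rw [Finset.mul_sum]
    refine Finset.sum_congr rfl fun i _ => ?_
    ring
  rw [f1, f1, f2, f2, f3, f3, map_sub, Derivation.leibniz, Derivation.leibniz, hDY, hDY] at t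
  have h3 : J.D (3 : A) = 0 := by
    have e : (3 : A) = ((3 : ℕ) : A) := Nat.cast_ofNat.symm
    rw [e]
    exact Derivation.map_natCast _ _
  rw [h3, smul_zero, smul_zero, add_zero, add_zero, smul_eq_mul, smul_eq_mul] at t
  rw [hZtG, hZtG, hPsi, hPsi]
  have g1 : J.D (s.Zt K ρ a b) = J.D (Z J K ρ a b)
      - k * ((GG a b + M a b + T1 a b) - (GG b a + M b a + T1 b a)) := by
    unfold Zt
    rw [← hk, map_sub, Derivation.leibniz, hDk, smul_zero, add_zero, smul_eq_mul, map_sub, hDY, hDY]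
  rw [g1, hMs]
  rw [hMs] at t
  linear_combination -t

variable (hP2 : ∀ n, 2 ≤ n → ∀ c i a, J.pd n c (s.Psi i a) = 0)

include hP2

/-- `Zt` is a function of `u`. -/
theorem Zt_order : ∀ n, 1 ≤ n → ∀ c a b, J.pd n c (s.Zt K ρ a b) = 0 := by
  have hH : ∀ n, 1 ≤ n → ∀ c a b, J.pd n c (H J K ρ a b) = 0 := s.H_order hρ h
  have := order_zero (J := J) (fun x : Fin N × Fin N => s.Zt K ρ x.1 x.2)
    (fun x => 3 * (∑ i, s.Zt K ρ i x.2 * s.G i x.1 - ∑ i, s.Zt K ρ i x.1 * s.G i x.2)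
      + (∑ i, H J K ρ i x.2 * s.Psi i x.1 - ∑ i, H J K ρ i x.1 * s.Psi i x.2))
    (fun x => by
      have := s.nabZ hρ h x.1 x.2
      linear_combination -this) (fun q hq hB c x => by
      have hB' : ∀ i j, J.pd (q + 1) c (s.Zt K ρ i j) = 0 := fun i j =>
        hB (q + 1) (by omega) c (i, j)
      have z1 : ∀ i j l, J.pd (q + 1) c (s.Zt K ρ i j * s.G i l) = 0 := by
        intro i j l
        rw [Derivation.leibniz, hB', s.pdG_two _ (by omega), smul_zero, smul_zero, add_zero]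
      have z2 : ∀ i j l, J.pd (q + 1) c (H J K ρ i j * s.Psi i l) = 0 := by
        intro i j l
        rw [Derivation.leibniz, hH _ (by omega), hP2 _ (by omega), smul_zero, smul_zero, add_zero]
      rw [map_add, Derivation.leibniz, pd_three, smul_zero, add_zero, map_sub, map_sub, map_sum,
        map_sum, map_sum, map_sum]
      simp only [z1, z2, Finset.sum_const_zero, sub_zero, smul_zero, add_zero])
  intro n hn c a b
  exact this n hn c (a, b)

/-- N7: the symmetry. -/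
theorem sym (a b c d : Fin N) :
    ∑ i, H J K ρ i b * J.pd 1 d (J.pd 1 c (s.Psi i a)) =
      ∑ i, H J K ρ i a * J.pd 1 d (J.pd 1 c (s.Psi i b)) := by
  have hH : ∀ n, 1 ≤ n → ∀ c a b, J.pd n c (H J K ρ a b) = 0 := s.H_order hρ h
  have hZ := s.Zt_order hρ h hP2
  have h1 := congrArg (fun x => J.pd 1 d (J.pd 1 c x)) (s.nabZ hρ h a b)
  have p3 : ∀ (x : A), J.pd 1 d (J.pd 1 c (3 * x)) = 3 * J.pd 1 d (J.pd 1 c x) := by
    intro x
    rw [Derivation.leibniz, pd_three, smul_zero, add_zero, smul_eq_mul, Derivation.leibniz,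
      pd_three, smul_zero, add_zero, smul_eq_mul]
  have e1 : J.pd 1 d (J.pd 1 c (J.D (s.Zt K ρ a b))) = 0 := by
    have e : J.pd 1 c (J.D (s.Zt K ρ a b)) = J.pd 0 c (s.Zt K ρ a b) := by
      have := J.pd_D_succ 0 c (s.Zt K ρ a b)
      rw [show 0 + 1 = 1 from rfl, hZ 1 le_rfl, map_zero, zero_add] at this
      exact this
    rw [e, J.pd_comm, hZ 1 le_rfl, map_zero]
  have e2 : ∀ i j l, J.pd 1 d (J.pd 1 c (s.Zt K ρ i j * s.G i l)) = 0 := by
    intro i j l
    rw [Derivation.leibniz, hZ 1 le_rfl, s.pdG_one, smul_zero, add_zero, smul_eq_mul,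
      Derivation.leibniz, hZ 1 le_rfl, s.al_pd 1 _ _ _ _ le_rfl, smul_zero, smul_zero, add_zero]
  have e3 : ∀ i j l, J.pd 1 d (J.pd 1 c (H J K ρ i j * s.Psi i l)) =
      H J K ρ i j * J.pd 1 d (J.pd 1 c (s.Psi i l)) := by
    intro i j l
    rw [Derivation.leibniz, hH 1 le_rfl, smul_zero, add_zero, smul_eq_mul, Derivation.leibniz,
      hH 1 le_rfl, smul_zero, add_zero, smul_eq_mul]
  simp only [map_sub, p3, e1, map_sum, e2, e3, Finset.sum_const_zero, sub_self, mul_zero] at h1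
  exact (sub_eq_zero.mp h1.symm)

end law

end Sys

end Pool.Agent.Lib.H94J
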