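import Pool.Agent.Lib.H94J.N4

/-!
# Necessity: the curvature is skew with respect to the Hessian; the tensor `Ψ`
-/

set_option autoImplicit false

namespace Pool.Agent.Lib.H94J

open Pool.Agent.Lib.H99JetCalc

variable {𝕜 A : Type*} [Field 𝕜] [CharZero 𝕜] [CommRing A] [Algebra 𝕜 A] {N : ℕ}

namespace Sys

variable {J : JetCalc 𝕜 A N} (s : Sys J)

/-- curvature -/
def Rc (i j k l : Fin N) : A := J.pd 0 k (s.al i j l) - J.pd 0 l (s.al i j k)
  + ∑ t, s.al i t k * s.al t j l - ∑ t, s.al i t l * s.al t j k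

section law

variable {K : ℕ} {ρ σ : A} (hρ : ∀ n, K + 1 < n → ∀ i, J.pd n i ρ = 0)
  (h : s.Dt (K + 1) ρ = J.D σ)

include hρ h

theorem H_curv (a b c d : Fin N) :
    ∑ i, H J K ρ i b * s.Rc i a d c + ∑ i, H J K ρ i a * s.Rc i b d c = 0 := by
  obtain ⟨U, hU⟩ : ∃ U : Fin N → Fin N → Fin N → Fin N → A,
    ∀ d c a b, U d c a b = ∑ i, ∑ t, H J K ρ t b * s.al t d i * s.al i c a :=
    ⟨_, fun _ _ _ _ => rfl⟩
  obtain ⟨V, hV⟩ : ∃ V : Fin N → Fin N → Fin N → Fin N → A,
    ∀ d c a b, V d c a b = ∑ i, ∑ t, H J K ρ t i * s.al t d b * s.al i c a :=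
    ⟨_, fun _ _ _ _ => rfl⟩
  obtain ⟨W, hW⟩ : ∃ W : Fin N → Fin N → Fin N → Fin N → A,
    ∀ d c a b, W d c a b = ∑ i, H J K ρ i b * J.pd 0 d (s.al i c a) := ⟨_, fun _ _ _ _ => rfl⟩
  have hE : ∀ d c, J.pd 0 d (J.pd 0 c (H J K ρ a b)) =
      U d c a b + V d c a b + W d c a b + (U d c b a + V d c b a + W d c b a) := by
    intro d c
    have key : ∀ a b, J.pd 0 d (∑ i, H J K ρ i b * s.al i c a) =
        U d c a b + V d c a b + W d c a b := by
      intro a b
      rw [hU, hV, hW, map_sum, ← Finset.sum_add_distrib, ← Finset.sum_add_distrib]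
      refine Finset.sum_congr rfl fun i _ => ?_
      rw [Derivation.leibniz, smul_eq_mul, smul_eq_mul, s.H_parallel hρ h, Finset.mul_sum,
        ← Finset.sum_add_distrib, add_comm]
      congr 1
      refine Finset.sum_congr rfl fun t _ => ?_
      ring
    rw [s.H_parallel hρ h, Finset.sum_add_distrib, map_add, key, key]
  have hVs : ∀ d c a b, V d c a b = V c d b a := by
    intro d c a b
    rw [hV, hV, Finset.sum_comm]
    refine Finset.sum_congr rfl fun i _ => Finset.sum_congr rfl fun t _ => ?_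
    rw [H_symm K ρ i t]; ring
  have hR : ∀ a b, ∑ i, H J K ρ i b * s.Rc i a d c =
      W d c a b - W c d a b + U d c a b - U c d a b := by
    intro a b
    have hU' : ∀ d c, U d c a b = ∑ i, ∑ t, H J K ρ i b * s.al i d t * s.al t c a := by
      intro d c
      rw [hU, Finset.sum_comm]
    rw [hW, hW, hU', hU', ← Finset.sum_sub_distrib, ← Finset.sum_add_distrib,
      ← Finset.sum_sub_distrib]
    refine Finset.sum_congr rfl fun i _ => ?_
    have f1 : ∀ d c, ∑ t, H J K ρ i b * s.al i d t * s.al t c a =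
        H J K ρ i b * ∑ t, s.al i t d * s.al t a c := by
      intro d c
      rw [Finset.mul_sum]
      refine Finset.sum_congr rfl fun t _ => ?_
      rw [s.al_symm i d t, s.al_symm t c a]; ring
    rw [f1, f1]
    unfold Rc
    rw [s.al_symm i a c, s.al_symm i a d]
    ring
  have hc : J.pd 0 d (J.pd 0 c (H J K ρ a b)) = J.pd 0 c (J.pd 0 d (H J K ρ a b)) :=
    J.pd_comm _ _ _ _ _
  rw [hE, hE] at hc
  rw [hR, hR]
  linear_combination hc - hVs d c a b - hVs d c b a

end law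

section mk

variable (J) (al : Fin N → Fin N → Fin N → A) (ph : Fin N → Fin N → Fin N → Fin N → A)

/-- the right hand side -/
def mkF (i : Fin N) : A := J.X 3 i + 3 * (∑ p, ∑ q, al i p q * J.X 1 p * J.X 2 q)
  + ∑ p, ∑ q, ∑ r, ph i p q r * J.X 1 p * J.X 1 q * J.X 1 r

variable {J al ph} (hs : ∀ i j k, al i j k = al i k j)
  (hal : ∀ n c i j k, 1 ≤ n → J.pd n c (al i j k) = 0)
  (hph : ∀ n c i p q r, 1 ≤ n → J.pd n c (ph i p q r) = 0)

include hal hph in
omit [CharZero 𝕜] in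
theorem mkF_high (n : ℕ) (hn : 2 ≤ n) (a i : Fin N) : J.pd n a (mkF J al ph i) =
    J.pd n a (J.X 3 i) + 3 * ∑ p, ∑ q, al i p q * J.X 1 p * J.pd n a (J.X 2 q) := by
  have h1 : ¬ n = 1 := by omega
  have x1 : ∀ p, J.pd n a (J.X 1 p) = 0 := by
    intro p; rw [J.pd_X, if_neg (fun h => h1 h.1)]
  unfold mkF
  simp only [map_add, Derivation.leibniz, pd_three, map_sum, smul_eq_mul, x1,
    hal n _ _ _ _ (by omega), hph n _ _ _ _ _ (by omega), mul_zero, add_zero,
    Finset.sum_const_zero]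

include hal hph in
omit [CharZero 𝕜] in
theorem mkF_one (a i : Fin N) : J.pd 1 a (mkF J al ph i) =
    3 * ∑ q, al i a q * J.X 2 q
      + ∑ q, ∑ r, (ph i a q r + ph i q a r + ph i q r a) * J.X 1 q * J.X 1 r := by
  have x1 : ∀ p, J.pd 1 a (J.X 1 p) = if a = p then 1 else 0 := by
    intro p; rw [J.pd_X]; simp
  have x2 : ∀ p, J.pd 1 a (J.X 2 p) = 0 := by
    intro p; rw [J.pd_X]; simp
  have x3 : ∀ p, J.pd 1 a (J.X 3 p) = 0 := by
    intro p; rw [J.pd_X]; simp
  unfold mkF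
  simp only [map_add, Derivation.leibniz, pd_three, map_sum, smul_eq_mul, x1, x2, x3,
    hal 1 _ _ _ _ le_rfl, hph 1 _ _ _ _ _ le_rfl, mul_zero, add_zero, zero_add]
  have e1 : ∑ x, ∑ x_1, J.X 2 x_1 * (al i x x_1 * if a = x then 1 else 0) =
      ∑ q, al i a q * J.X 2 q := by
    rw [Finset.sum_comm]
    refine Finset.sum_congr rfl fun q _ => ?_
    simp only [mul_ite, mul_one, mul_zero, Finset.sum_ite_eq, Finset.mem_univ, if_true]
    ring
  have e2 : ∀ x x_1 x_2 : Fin N, (ph i x x_1 x_2 * J.X 1 x * J.X 1 x_1 * if a = x_2 then 1 else 0) +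
      J.X 1 x_2 * ((ph i x x_1 x_2 * J.X 1 x * if a = x_1 then 1 else 0) +
        J.X 1 x_1 * (ph i x x_1 x_2 * if a = x then 1 else 0)) =
      (if a = x_2 then ph i x x_1 x_2 * J.X 1 x * J.X 1 x_1 else 0)
      + (if a = x_1 then ph i x x_1 x_2 * J.X 1 x * J.X 1 x_2 else 0)
      + (if a = x then ph i x x_1 x_2 * J.X 1 x_1 * J.X 1 x_2 else 0) := by
    intro x y z
    split_ifs <;> ring
  rw [e1]
  congr 1
  simp only [e2, Finset.sum_add_distrib, Finset.sum_ite_eq, Finset.mem_univ, if_true, add_mul]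
  have e3 : ∑ x, ∑ x_1, ∑ x_2, (if a = x_1 then ph i x x_1 x_2 * J.X 1 x * J.X 1 x_2 else 0) =
      ∑ q, ∑ r, ph i q a r * J.X 1 q * J.X 1 r := by
    refine Finset.sum_congr rfl fun q _ => ?_
    rw [Finset.sum_comm]
    refine Finset.sum_congr rfl fun r _ => ?_
    simp only [Finset.sum_ite_eq, Finset.mem_univ, if_true]
  have e4 : ∑ x, ∑ x_1, ∑ x_2, (if a = x then ph i x x_1 x_2 * J.X 1 x_1 * J.X 1 x_2 else 0) =
      ∑ q, ∑ r, ph i a q r * J.X 1 q * J.X 1 r := by
    rw [Finset.sum_comm]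
    refine Finset.sum_congr rfl fun q _ => ?_
    rw [Finset.sum_comm]
    refine Finset.sum_congr rfl fun r _ => ?_
    simp only [Finset.sum_ite_eq, Finset.mem_univ, if_true]
  rw [e3, e4]
  ring

variable (J al ph) in
/-- the system -/
def mk' (hs : ∀ i j k, al i j k = al i k j)
    (hal : ∀ n c i j k, 1 ≤ n → J.pd n c (al i j k) = 0)
    (hph : ∀ n c i p q r, 1 ≤ n → J.pd n c (ph i p q r) = 0) : Sys J where
  F := mkF J al ph
  al := al
  al_symm := hs
  al_pd := hal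
  F4 n a i hn := by
    rw [mkF_high hal hph n (by omega)]
    simp only [J.pd_X]
    have h2 : ¬ n = 2 := by omega
    have h3 : ¬ n = 3 := by omega
    simp [h2, h3]
  F3 a i := by
    rw [mkF_high hal hph 3 (by omega)]
    simp only [J.pd_X]
    simp
  F2 a i := by
    rw [mkF_high hal hph 2 (by omega)]
    simp only [J.pd_X]
    simp

end mk

end Sys

end Pool.Agent.Lib.H94J
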