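import Pool.Agent.Lib.H94J.N5

/-!
# Necessity: the second derivatives of the tensor `Ψ`
-/

set_option autoImplicit false

namespace Pool.Agent.Lib.H94J

open Pool.Agent.Lib.H99JetCalc

variable {𝕜 A : Type*} [Field 𝕜] [CharZero 𝕜] [CommRing A] [Algebra 𝕜 A] {N : ℕ}

namespace Sys

section mk

variable {J : JetCalc 𝕜 A N} {al : Fin N → Fin N → Fin N → A}
  {ph : Fin N → Fin N → Fin N → Fin N → A} (hs : ∀ i j k, al i j k = al i k j)
  (hal : ∀ n c i j k, 1 ≤ n → J.pd n c (al i j k) = 0)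
  (hph : ∀ n c i p q r, 1 ≤ n → J.pd n c (ph i p q r) = 0)

omit [CharZero 𝕜] in
theorem mk_Psi2 (n : ℕ) (hn : 2 ≤ n) (c i a : Fin N) :
    J.pd n c ((mk' J al ph hs hal hph).Psi i a) = 0 := by
  obtain ⟨s, hs'⟩ : ∃ s, s = mk' J al ph hs hal hph := ⟨_, rfl⟩
  rw [← hs']
  have hGG : J.pd n c (∑ t, s.G i t * s.G t a) = 0 := by
    rw [map_sum, Finset.sum_eq_zero]
    intro t _
    rw [Derivation.leibniz, s.pdG_two n hn, s.pdG_two n hn, smul_zero, smul_zero, add_zero]
  unfold Psi
  rw [map_sub, map_sub, Derivation.leibniz, Derivation.leibniz, pd_three, hGG, smul_zero,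
    smul_zero, smul_zero, add_zero, add_zero, sub_zero, smul_eq_mul]
  rcases Nat.lt_or_ge 2 n with h | h
  · obtain ⟨n, rfl⟩ : ∃ n', n = n' + 1 := ⟨n - 1, by omega⟩
    rw [s.pdQ_three _ (by omega), J.pd_D_succ, s.pdG_two _ (by omega), s.pdG_two _ (by omega),
      map_zero, add_zero, mul_zero, sub_zero]
  · have h2 : n = 1 + 1 := by omega
    rw [h2, J.pd_D_succ, s.pdG_two _ (by omega), s.pdG_one, map_zero, zero_add]
    have := s.pdQ_two c a i
    rw [show (1 + 1 : ℕ) = 2 from rfl, this, s.al_symm i a c, sub_self]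

omit [CharZero 𝕜] in
theorem mk_Psi1 (c d i a : Fin N) :
    J.pd 1 d (J.pd 1 c ((mk' J al ph hs hal hph).Psi i a)) =
      (ph i a c d + ph i c a d + ph i c d a + ph i a d c + ph i d a c + ph i d c a)
      - 3 * (J.pd 0 d (al i c a) + J.pd 0 c (al i d a))
      - 3 * ∑ t, (al i c t * al t d a + al i d t * al t c a) := by
  obtain ⟨s, hs'⟩ : ∃ s, s = mk' J al ph hs hal hph := ⟨_, rfl⟩
  rw [← hs']
  have hal' : s.al = al := by rw [hs']; rfl
  have x1 : ∀ (c : Fin N) p, J.pd 1 c (J.X 1 p) = if c = p then 1 else 0 := by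
    intro c p; rw [J.pd_X]; simp
  have x2 : ∀ (c : Fin N) p, J.pd 1 c (J.X 2 p) = 0 := by
    intro c p; rw [J.pd_X]; simp
  have p3 : ∀ (x : A), J.pd 1 d (J.pd 1 c (3 * x)) = 3 * J.pd 1 d (J.pd 1 c x) := by
    intro x
    rw [Derivation.leibniz, pd_three, smul_zero, add_zero, smul_eq_mul, Derivation.leibniz,
      pd_three, smul_zero, add_zero, smul_eq_mul]
  have eQ : J.pd 1 d (J.pd 1 c (s.Q i a)) =
      ph i a c d + ph i c a d + ph i c d a + ph i a d c + ph i d a c + ph i d c a := by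
    have e0 : s.Q i a = J.pd 1 a (mkF J al ph i) := by rw [hs']; rfl
    rw [e0, mkF_one hal hph]
    obtain ⟨w, hw⟩ : ∃ w : Fin N → Fin N → A, ∀ q r, ph i a q r + ph i q a r + ph i q r a = w q r :=
      ⟨_, fun _ _ => rfl⟩
    have hw0 : ∀ c q r, J.pd 1 c (w q r) = 0 := by
      intro c q r
      rw [← hw, map_add, map_add, hph 1 _ _ _ _ _ le_rfl, hph 1 _ _ _ _ _ le_rfl,
        hph 1 _ _ _ _ _ le_rfl]
      ring
    simp only [hw]
    have e1 : ∀ c, J.pd 1 c (3 * ∑ q, al i a q * J.X 2 q + ∑ q, ∑ r, w q r * J.X 1 q * J.X 1 r) =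
        ∑ r, (w c r + w r c) * J.X 1 r := by
      intro c
      have z1 : J.pd 1 c (3 * ∑ q, al i a q * J.X 2 q) = 0 := by
        rw [Derivation.leibniz, pd_three, smul_zero, add_zero, map_sum, Finset.sum_eq_zero,
          smul_zero]
        intro q _
        rw [Derivation.leibniz, x2, hal 1 _ _ _ _ le_rfl, smul_zero, smul_zero, add_zero]
      rw [map_add, z1, zero_add]
      simp only [map_sum, Derivation.leibniz, smul_eq_mul, x1, hw0, mul_zero, add_zero]
      have e2 : ∀ x x_1 : Fin N, (w x x_1 * J.X 1 x * if c = x_1 then 1 else 0) +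
          J.X 1 x_1 * (w x x_1 * if c = x then 1 else 0) =
          (if c = x_1 then w x x_1 * J.X 1 x else 0) + (if c = x then w x x_1 * J.X 1 x_1 else 0) := by
        intro x y
        split_ifs <;> ring
      simp only [e2, Finset.sum_add_distrib, Finset.sum_ite_eq, Finset.mem_univ, if_true, add_mul]
      rw [add_comm]
      congr 1
      rw [Finset.sum_comm]
      refine Finset.sum_congr rfl fun r _ => ?_
      simp only [Finset.sum_ite_eq, Finset.mem_univ, if_true]
    rw [e1]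
    simp only [map_sum, Derivation.leibniz, smul_eq_mul, x1, map_add, hw0, add_zero, mul_zero,
      mul_ite, mul_one, Finset.sum_ite_eq, Finset.mem_univ, if_true]
    rw [← hw, ← hw]
    ring
  have eD : J.pd 1 d (J.pd 1 c (J.D (s.G i a))) = J.pd 0 d (al i c a) + J.pd 0 c (al i d a) := by
    have e1 := J.pd_D_succ 0 c (s.G i a)
    rw [show 0 + 1 = 1 from rfl, s.pdG_one] at e1
    have e2 := J.pd_D_succ 0 d (s.al i c a)
    rw [show 0 + 1 = 1 from rfl, s.al_pd 1 _ _ _ _ le_rfl, map_zero, zero_add] at e2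
    rw [e1, map_add, e2, J.pd_comm 1 d 0 c, s.pdG_one, hal']
  have eG : J.pd 1 d (J.pd 1 c (∑ t, s.G i t * s.G t a)) =
      ∑ t, (al i c t * al t d a + al i d t * al t c a) := by
    rw [map_sum, map_sum]
    refine Finset.sum_congr rfl fun t _ => ?_
    rw [Derivation.leibniz, s.pdG_one, s.pdG_one, map_add, smul_eq_mul, smul_eq_mul,
      Derivation.leibniz, Derivation.leibniz, s.pdG_one, s.pdG_one, s.al_pd 1 _ _ _ _ le_rfl,
      s.al_pd 1 _ _ _ _ le_rfl, hal']
    simp only [smul_zero, zero_add, smul_eq_mul]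
    ring
  unfold Psi
  rw [map_sub, map_sub, map_sub, map_sub, p3, p3, eQ, eD, eG]

/-- The second derivatives of `Ψ` for `φ = ∂α + αα + β`. -/
theorem mk_Psi3 {be : Fin N → Fin N → Fin N → Fin N → A}
    (hb1 : ∀ i p q r, be i p q r = be i q p r) (hb2 : ∀ i p q r, be i p q r = be i p r q)
    (hph' : ∀ i p q r, ph i p q r = J.pd 0 p (al i q r) + ∑ t, al i p t * al t q r + be i p q r)
    (c d i a : Fin N) :
    J.pd 1 d (J.pd 1 c ((mk' J al ph hs hal hph).Psi i a)) =
      6 * be i c d a + (mk' J al ph hs hal hph).Rc i c a d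
        + (mk' J al ph hs hal hph).Rc i d a c := by
  rw [mk_Psi1 hs hal hph]
  have hal' : (mk' J al ph hs hal hph).al = al := rfl
  unfold Rc
  rw [hal']
  simp only [hph']
  have b1 : be i a c d = be i c d a := by rw [hb1 i a c d, hb2 i c a d]
  have b2 : be i c a d = be i c d a := hb2 i c a d
  have b3 : be i a d c = be i c d a := by rw [hb2 i a d c, b1]
  have b4 : be i d a c = be i c d a := by rw [hb1 i d a c, b3]
  have b5 : be i d c a = be i c d a := hb1 i d c a
  rw [b1, b2, b3, b4, b5]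
  have q1 : ∀ p q r, ∑ t, al i p t * al t q r = ∑ t, al i t p * al t q r := fun p q r =>
    Finset.sum_congr rfl fun t _ => by rw [hs i p t]
  have q2 : ∀ p q r, ∑ t, al i t p * al t q r = ∑ t, al i t p * al t r q := fun p q r =>
    Finset.sum_congr rfl fun t _ => by rw [hs t q r]
  rw [Finset.sum_add_distrib, q1 a c d, q1 c a d, q1 c d a, q1 a d c, q1 d a c, q1 d c a,
    q2 a d c, q2 c a d, q2 d a c, hs i a d, hs i a c, hs i d c]
  ring

end mk

end Sys

end Pool.Agent.Lib.H94J
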