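import Pool.Agent.Lib.H29J.F

/-!
# Weighted monomials in the jet variables and reduction modulo total derivatives
-/

set_option autoImplicit false

namespace Pool.Agent.Lib.H94J

open Pool.Agent.Lib.H99JetCalc Pool.Agent.Lib.H29J

variable {𝕜 : Type} [RCLike 𝕜] {N : ℕ}

section

variable {Ω : Set (Jet 𝕜 N)} (hΩ : IsOpen Ω)

/-- product of jet variables -/
noncomputable def xs (Ω : Set (Jet 𝕜 N)) (l : List (ℕ × Fin N)) : diffAlg Ω :=
  (l.map fun p => X Ω p.1 p.2).prod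

theorem xs_nil : xs Ω [] = 1 := rfl

theorem xs_cons (p : ℕ × Fin N) (l : List (ℕ × Fin N)) : xs Ω (p :: l) = X Ω p.1 p.2 * xs Ω l := by
  unfold xs; rw [List.map_cons, List.prod_cons]

theorem xs_append (l l' : List (ℕ × Fin N)) : xs Ω (l ++ l') = xs Ω l * xs Ω l' := by
  unfold xs; rw [List.map_append, List.prod_append]

theorem xs_perm {l l' : List (ℕ × Fin N)} (h : l.Perm l') : xs Ω l = xs Ω l' := by
  unfold xs; exact (h.map _).prod_eq

/-- total weight -/
def wt (l : List (ℕ × Fin N)) : ℕ := (l.map Prod.fst).sum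

/-- The span of the monomials of weight `w`, with at least `d` factors, all of positive order
at most `M`, the coefficients being functions of `u`. -/
noncomputable def P (Ω : Set (Jet 𝕜 N)) (w d M : ℕ) : Submodule 𝕜 (diffAlg Ω) :=
  Submodule.span 𝕜 {f | ∃ c ∈ Ord Ω 0, ∃ l : List (ℕ × Fin N),
    (∀ p ∈ l, 1 ≤ p.1 ∧ p.1 ≤ M) ∧ wt l = w ∧ d ≤ l.length ∧ f = c * xs Ω l}

theorem P_mono {w d M d' M' : ℕ} (hd : d' ≤ d) (hM : M ≤ M') : P Ω w d M ≤ P Ω w d' M' := by
  apply Submodule.span_mono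
  rintro f ⟨c, hc, l, hl, hw, hd', rfl⟩
  exact ⟨c, hc, l, fun p hp => ⟨(hl p hp).1, (hl p hp).2.trans hM⟩, hw, hd.trans hd', rfl⟩

theorem le_wt {l : List (ℕ × Fin N)} {p : ℕ × Fin N} (hp : p ∈ l) : p.1 ≤ wt l := by
  unfold wt
  exact List.single_le_sum (by simp) _ (List.mem_map_of_mem hp)

/-- All orders are at most the weight. -/
theorem P_wt {w d M : ℕ} : P Ω w d M ≤ P Ω w d w := by
  apply Submodule.span_mono
  rintro f ⟨c, hc, l, hl, hw, hd', rfl⟩
  exact ⟨c, hc, l, fun p hp => ⟨(hl p hp).1, hw ▸ le_wt hp⟩, hw, hd', rfl⟩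

theorem P_mul {w d M w' d' : ℕ} {f g : diffAlg Ω} (hf : f ∈ P Ω w d M) (hg : g ∈ P Ω w' d' M) :
    f * g ∈ P Ω (w + w') (d + d') M := by
  induction hf using Submodule.span_induction with
  | mem f hf =>
    obtain ⟨c, hc, l, hl, hw, hd, rfl⟩ := hf
    induction hg using Submodule.span_induction with
    | mem g hg =>
      obtain ⟨c', hc', l', hl', hw', hd', rfl⟩ := hg
      apply Submodule.subset_span
      refine ⟨c * c', Ord_mul hc hc', l ++ l', ?_, ?_, ?_, ?_⟩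
      · intro p hp
        rcases List.mem_append.mp hp with h | h
        · exact hl p h
        · exact hl' p h
      · unfold wt at *; rw [List.map_append, List.sum_append, hw, hw']
      · rw [List.length_append]; omega
      · rw [xs_append]; ring
    | zero => rw [mul_zero]; exact zero_mem _
    | add x y _ _ h1 h2 => rw [mul_add]; exact add_mem h1 h2
    | smul a x _ h => rw [mul_smul_comm]; exact Submodule.smul_mem _ _ h
  | zero => rw [zero_mul]; exact zero_mem _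
  | add x y _ _ h1 h2 => rw [add_mul]; exact add_mem h1 h2
  | smul a x _ h => rw [smul_mul_assoc]; exact Submodule.smul_mem _ _ h

theorem P_ord0 {c : diffAlg Ω} (hc : c ∈ Ord Ω 0) (M : ℕ) : c ∈ P Ω 0 0 M := by
  apply Submodule.subset_span
  exact ⟨c, hc, [], by simp, rfl, Nat.zero_le _, by rw [xs_nil, mul_one]⟩

theorem one_Ord (r : ℕ) : (1 : diffAlg Ω) ∈ Ord Ω r :=
  ⟨fun _ => 1, fun _ => ⟨analyticAt_const, rfl⟩⟩

theorem P_X {n : ℕ} (hn : 1 ≤ n) (i : Fin N) : X Ω n i ∈ P Ω n 1 n := by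
  apply Submodule.subset_span
  refine ⟨1, one_Ord 0, [(n, i)], ?_, ?_, le_rfl, ?_⟩
  · intro p hp
    rw [List.mem_singleton] at hp
    rw [hp]; exact ⟨hn, le_rfl⟩
  · unfold wt; simp
  · rw [xs_cons, xs_nil]; ring

theorem P_cmul {w d M : ℕ} {c f : diffAlg Ω} (hc : c ∈ Ord Ω 0) (hf : f ∈ P Ω w d M) :
    c * f ∈ P Ω w d M := by
  have := P_mul (P_ord0 hc M) hf
  rwa [zero_add, zero_add] at this

theorem P_le_Ord {w d M : ℕ} : P Ω w d M ≤ Ord Ω M := by
  apply Submodule.span_le.mpr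
  rintro f ⟨c, hc, l, hl, -, -, rfl⟩
  refine Ord_mul (Ord_mono (Nat.zero_le M) hc) ?_
  clear hc
  induction l with
  | nil => exact one_Ord M
  | cons p l ih =>
    rw [xs_cons]
    refine Ord_mul (Ord_mono (hl p (by simp)).2 (Ord_X p.1 p.2)) (ih fun q hq => hl q (by simp [hq]))

/-- Partial derivatives of high order vanish. -/
theorem pd_Ord {r n : ℕ} (hn : r < n) (i : Fin N) {f : diffAlg Ω} (hf : f ∈ Ord Ω r) :
    (jetCalc hΩ).pd n i f = 0 := by
  obtain ⟨f', hf'⟩ := hf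
  apply Subtype.ext
  funext j
  show (along hΩ (pdV Ω n i) f).1 j = 0
  rw [along_apply hΩ _ hf']
  have : trunc r (fun m l => (pdV Ω n i m l).1 j) = 0 := by
    funext m l
    show (eJet n i : Jet 𝕜 N) m l = 0
    unfold eJet
    have : (Pi.single n (Pi.single i 1) : Jet 𝕜 N) m = 0 := by
      rw [Pi.single_apply, if_neg]; omega
    rw [this]; rfl
  rw [this, map_zero]

theorem pd_mem_Ord {r : ℕ} (n : ℕ) (i : Fin N) {f : diffAlg Ω} (hf : f ∈ Ord Ω r) :
    (jetCalc hΩ).pd n i f ∈ Ord Ω r := by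
  obtain ⟨f', hf'⟩ := hf
  exact ⟨_, rep_pd hΩ hf' n i⟩

/-- The total derivative of a function of `u`. -/
theorem D_Ord0 {c : diffAlg Ω} (hc : c ∈ Ord Ω 0) :
    (jetCalc hΩ).D c = ∑ i, (jetCalc hΩ).pd 0 i c * X Ω 1 i := by
  obtain ⟨f', hf'⟩ := hc
  have h := along_eq_sum hΩ (fun n i => X Ω (n + 1) i) hf'
  rw [Finset.sum_range_one] at h
  exact h

theorem D_Xn (n : ℕ) (i : Fin N) : (jetCalc hΩ).D (X Ω n i) = X Ω (n + 1) i := D_iter_X hΩ 1 n i

theorem P_D_ord0 {c : diffAlg Ω} (hc : c ∈ Ord Ω 0) : (jetCalc hΩ).D c ∈ P Ω 1 1 1 := by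
  rw [D_Ord0 hΩ hc]
  exact Submodule.sum_mem _ fun i _ => P_cmul (pd_mem_Ord hΩ 0 i hc) (P_X le_rfl i)

theorem P_xs {M : ℕ} (l : List (ℕ × Fin N)) (hl : ∀ p ∈ l, 1 ≤ p.1 ∧ p.1 ≤ M) :
    xs Ω l ∈ P Ω (wt l) l.length M := by
  apply Submodule.subset_span
  exact ⟨1, one_Ord 0, l, hl, rfl, le_rfl, by rw [one_mul]⟩

theorem P_D_xs {M : ℕ} (l : List (ℕ × Fin N)) (hl : ∀ p ∈ l, 1 ≤ p.1 ∧ p.1 ≤ M) :
    (jetCalc hΩ).D (xs Ω l) ∈ P Ω (wt l + 1) l.length (M + 1) := by
  induction l with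
  | nil => rw [xs_nil, Derivation.map_one_eq_zero]; exact zero_mem _
  | cons p l ih =>
    have hp := hl p (by simp)
    have hl' : ∀ q ∈ l, 1 ≤ q.1 ∧ q.1 ≤ M := fun q hq => hl q (by simp [hq])
    have e : wt (p :: l) = p.1 + wt l := by unfold wt; rw [List.map_cons, List.sum_cons]
    rw [xs_cons, Derivation.leibniz, smul_eq_mul, smul_eq_mul, D_Xn, List.length_cons, e]
    refine add_mem ?_ ?_
    · have h1 := P_mul (P_mono (d' := 1) le_rfl (hp.2.trans (Nat.le_succ M)) (P_X hp.1 p.2))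
        (ih hl')
      have e1 : p.1 + (wt l + 1) = p.1 + wt l + 1 := by ring
      rw [e1, add_comm 1 l.length] at h1
      exact h1
    · have h0 : X Ω (p.1 + 1) p.2 ∈ P Ω (p.1 + 1) 1 (p.1 + 1) := P_X (by omega) p.2
      have h1 := P_mul (P_mono (d' := l.length) (Nat.le_refl _) (Nat.le_succ M) (P_xs l hl'))
        (P_mono (d' := 1) le_rfl (Nat.succ_le_succ hp.2) h0)
      have e1 : wt l + (p.1 + 1) = p.1 + wt l + 1 := by ring
      rw [e1] at h1
      exact h1

/-- R2: total derivatives. -/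
theorem P_D {w d M : ℕ} {f : diffAlg Ω} (hf : f ∈ P Ω w d M) :
    (jetCalc hΩ).D f ∈ P Ω (w + 1) d (M + 1) := by
  induction hf using Submodule.span_induction with
  | mem f hf =>
    obtain ⟨c, hc, l, hl, hw, hd, rfl⟩ := hf
    rw [Derivation.leibniz, smul_eq_mul, smul_eq_mul]
    refine add_mem ?_ ?_
    · have := P_cmul hc (P_D_xs hΩ l hl)
      rw [hw] at this
      exact P_mono hd le_rfl this
    · have h1 := P_mul (P_mono (d' := l.length) (Nat.le_refl _) (Nat.le_succ M) (P_xs l hl))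
        (P_mono (M' := M + 1) (d' := 1) le_rfl (by omega) (P_D_ord0 hΩ hc))
      rw [hw] at h1
      exact P_mono (by omega) le_rfl h1
  | zero => rw [map_zero]; exact zero_mem _
  | add x y _ _ h1 h2 => rw [map_add]; exact add_mem h1 h2
  | smul a x _ h => rw [Derivation.map_smul]; exact Submodule.smul_mem _ _ h

end

end Pool.Agent.Lib.H94J
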