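import Pool.Agent.Lib.H94J.N6
import Pool.Agent.Lib.H94J.R1

/-!
# Necessity: the abstract system of a geometric system on an open set of jets
-/

set_option autoImplicit false

namespace Pool.Agent.Lib.H94J

open Pool.Agent.Lib.H99JetCalc Pool.Agent.Lib.H29J GeometricSystem

variable {𝕜 : Type} [RCLike 𝕜] {N : ℕ}

section

variable (S : GeometricSystem 𝕜 N) {Ω : Set (Jet 𝕜 N)} (hd : ∀ j ∈ Ω, j 0 ∈ S.dom)

/-- A function of `u` as a differential function on `Ω`. -/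
noncomputable def toO (g : (Fin N → 𝕜) → 𝕜) (hg : AnalyticOnNhd 𝕜 g S.dom) : diffAlg Ω :=
  ⟨fun j => g (j.1 0), 0, fun y => g (y 0), fun j => ⟨by
    have h1 : AnalyticAt 𝕜 g ((ContinuousLinearMap.proj (R := 𝕜)
        (φ := fun _ : Fin (0 + 1) => Fin N → 𝕜) 0) (trunc 0 (j : Jet 𝕜 N))) := hg _ (hd _ j.2)
    exact AnalyticAt.comp (g := g) (f := fun y => (ContinuousLinearMap.proj (R := 𝕜)
        (φ := fun _ : Fin (0 + 1) => Fin N → 𝕜) 0) y) h1 (ContinuousLinearMap.analyticAt _ _), rfl⟩⟩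

theorem toO_apply (g : (Fin N → 𝕜) → 𝕜) (hg : AnalyticOnNhd 𝕜 g S.dom) (j : Ω) :
    (toO S hd g hg).1 j = g (j.1 0) := rfl

theorem toO_Ord (g : (Fin N → 𝕜) → 𝕜) (hg : AnalyticOnNhd 𝕜 g S.dom) :
    toO S hd g hg ∈ Ord Ω 0 := by
  refine ⟨fun y => g (y 0), fun j => ⟨?_, rfl⟩⟩
  have h1 : AnalyticAt 𝕜 g ((ContinuousLinearMap.proj (R := 𝕜)
      (φ := fun _ : Fin (0 + 1) => Fin N → 𝕜) 0) (trunc 0 (j : Jet 𝕜 N))) := hg _ (hd _ j.2)
  exact AnalyticAt.comp (g := g) (f := fun y => (ContinuousLinearMap.proj (R := 𝕜)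
      (φ := fun _ : Fin (0 + 1) => Fin N → 𝕜) 0) y) h1 (ContinuousLinearMap.analyticAt _ _)

variable (hΩ : IsOpen Ω)

theorem pd_toO (g : (Fin N → 𝕜) → 𝕜) (hg : AnalyticOnNhd 𝕜 g S.dom) (c : Fin N) :
    (jetCalc hΩ).pd 0 c (toO S hd g hg) = toO S hd (pdu c g) (pdu_analytic S hg c) := by
  obtain ⟨pr, hpr⟩ : ∃ pr : (Fin (0 + 1) → Fin N → 𝕜) →L[𝕜] (Fin N → 𝕜),
    pr = ContinuousLinearMap.proj (R := 𝕜) (φ := fun _ : Fin (0 + 1) => Fin N → 𝕜) 0 := ⟨_, rfl⟩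
  have hrep : Rep Ω 0 (fun y => g (pr y)) (toO S hd g hg).1 := by
    intro j
    have h1 : AnalyticAt 𝕜 g (pr (trunc 0 (j : Jet 𝕜 N))) := by rw [hpr]; exact hg _ (hd _ j.2)
    refine ⟨AnalyticAt.comp (g := g) (f := fun y => pr y) h1 (ContinuousLinearMap.analyticAt _ _),
      ?_⟩
    rw [hpr]; rfl
  apply Subtype.ext
  funext j
  have hdiff : DifferentiableAt 𝕜 g (pr (trunc 0 (j : Jet 𝕜 N))) := by
    rw [hpr]; exact (hg _ (hd _ j.2)).differentiableAt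
  have e1 : ((jetCalc hΩ).pd 0 c (toO S hd g hg)).1 j =
      fderiv 𝕜 (fun y => g (pr y)) (trunc 0 (j : Jet 𝕜 N))
        (trunc 0 (fun m l => (pdV Ω 0 c m l).1 j)) := along_apply hΩ _ hrep j
  have e2 : HasFDerivAt (fun y => g (pr y)) ((fderiv 𝕜 g (pr (trunc 0 (j : Jet 𝕜 N)))).comp pr)
      (trunc 0 (j : Jet 𝕜 N)) :=
    HasFDerivAt.comp (g := g) (f := fun y => pr y) (trunc 0 (j : Jet 𝕜 N)) hdiff.hasFDerivAt
      pr.hasFDerivAt
  rw [e1, e2.fderiv, ContinuousLinearMap.comp_apply]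
  have e3 : pr (trunc 0 (fun m l => (pdV Ω 0 c m l).1 j)) = Pi.single c 1 := by
    rw [hpr]; rfl
  have e4 : pr (trunc 0 (j : Jet 𝕜 N)) = j.1 0 := by rw [hpr]; rfl
  rw [e3, e4]
  rfl

theorem pd_toO_pos (g : (Fin N → 𝕜) → 𝕜) (hg : AnalyticOnNhd 𝕜 g S.dom) (n : ℕ) (hn : 1 ≤ n)
    (c : Fin N) : (jetCalc hΩ).pd n c (toO S hd g hg) = 0 :=
  pd_Ord hΩ hn c (toO_Ord S hd g hg)

/-- Christoffel symbols on `Ω` -/
noncomputable def alO (i j k : Fin N) : diffAlg Ω :=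
  toO S hd (fun u => S.α u i j k) (S.analytic_α i j k)

/-- the tensor `β` on `Ω` -/
noncomputable def beO (i j k m : Fin N) : diffAlg Ω :=
  toO S hd (fun u => S.β u i j k m) (S.analytic_β i j k m)

/-- the cubic coefficients on `Ω` -/
noncomputable def phO (i p q r : Fin N) : diffAlg Ω :=
  (jetCalc hΩ).pd 0 p (alO S hd i q r) + ∑ t, alO S hd i p t * alO S hd t q r + beO S hd i p q r

theorem alO_symm (hT : S.ZeroTorsion) (i j k : Fin N) : alO S hd i j k = alO S hd i k j := by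
  apply Subtype.ext
  funext u
  exact hT (u.1 0) (hd _ u.2) i j k

theorem alO_pd (n : ℕ) (c i j k : Fin N) (hn : 1 ≤ n) :
    (jetCalc hΩ).pd n c (alO S hd i j k) = 0 := pd_toO_pos S hd hΩ _ _ n hn c

theorem phO_pd (n : ℕ) (c i p q r : Fin N) (hn : 1 ≤ n) :
    (jetCalc hΩ).pd n c (phO S hd hΩ i p q r) = 0 := by
  unfold phO
  rw [map_add, map_add, (jetCalc hΩ).pd_comm, alO_pd S hd hΩ n _ _ _ _ hn, map_zero, zero_add,
    map_sum, Finset.sum_eq_zero, zero_add]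
  · exact pd_toO_pos S hd hΩ _ _ n hn c
  · intro t _
    rw [Derivation.leibniz, alO_pd S hd hΩ n _ _ _ _ hn, alO_pd S hd hΩ n _ _ _ _ hn, smul_zero,
      smul_zero, add_zero]

theorem beO_1 (i p q r : Fin N) : beO S hd i p q r = beO S hd i q p r := by
  apply Subtype.ext
  funext u
  exact (S.symm_β (u.1 0) (hd _ u.2) i p q r).1

theorem beO_2 (i p q r : Fin N) : beO S hd i p q r = beO S hd i p r q := by
  apply Subtype.ext
  funext u
  exact (S.symm_β (u.1 0) (hd _ u.2) i p q r).2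

/-- The abstract system. -/
noncomputable def sysO (hT : S.ZeroTorsion) : Sys (jetCalc hΩ) :=
  Sys.mk' (jetCalc hΩ) (alO S hd) (phO S hd hΩ) (alO_symm S hd hT)
    (fun n c i j k hn => alO_pd S hd hΩ n c i j k hn)
    (fun n c i p q r hn => phO_pd S hd hΩ n c i p q r hn)

/-- evaluation at a jet -/
noncomputable def evj (j : Ω) : diffAlg Ω →ₐ[𝕜] 𝕜 :=
  (Pi.evalAlgHom 𝕜 (fun _ : Ω => 𝕜) j).comp (diffAlg Ω).val

theorem evj_apply (j : Ω) (F : diffAlg Ω) : evj j F = F.1 j := rfl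

theorem evj_al (j : Ω) (i p q : Fin N) : evj j (alO S hd i p q) = S.α (j.1 0) i p q := rfl

theorem evj_be (j : Ω) (i p q r : Fin N) : evj j (beO S hd i p q r) = S.β (j.1 0) i p q r := rfl

theorem evj_pdal (j : Ω) (c i p q : Fin N) :
    evj j ((jetCalc hΩ).pd 0 c (alO S hd i p q)) = pdu c (fun u => S.α u i p q) (j.1 0) := by
  unfold alO
  rw [pd_toO]
  rfl

theorem evj_X (j : Ω) (n : ℕ) (i : Fin N) : evj j ((jetCalc hΩ).X n i) = j.1 n i := rfl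

theorem sysO_F (hT : S.ZeroTorsion) (j : Ω) (i : Fin N) :
    S.rhs j i = ((sysO S hd hΩ hT).F i).1 j := by
  show _ = evj j (Sys.mkF (jetCalc hΩ) (alO S hd) (phO S hd hΩ) i)
  unfold Sys.mkF phO GeometricSystem.rhs
  simp only [map_add, map_sum, map_mul, evj_al, evj_be, evj_pdal, evj_X]
  have e3 : (evj j) (3 : diffAlg Ω) = 3 := map_ofNat _ 3
  rw [e3]
  congr 1
  refine Finset.sum_congr rfl fun p _ => Finset.sum_congr rfl fun q _ =>
    Finset.sum_congr rfl fun r _ => ?_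
  have ht : ∑ s, S.α (j.1 0) i s p * S.α (j.1 0) s q r =
      ∑ s, S.α (j.1 0) i p s * S.α (j.1 0) s q r :=
    Finset.sum_congr rfl fun s _ => by rw [hT _ (hd _ j.2) i s p]
  rw [ht]
  ring

theorem evj_Rc (hT : S.ZeroTorsion) (j : Ω) (i p q r : Fin N) :
    evj j ((sysO S hd hΩ hT).Rc i p q r) = S.curvComp (j.1 0) i p q r := by
  have hal : (sysO S hd hΩ hT).al = alO S hd := rfl
  unfold Sys.Rc
  rw [hal]
  simp only [map_add, map_sub, map_sum, map_mul, evj_al, evj_pdal]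
  rfl

end

end Pool.Agent.Lib.H94J
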