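import Pool.Agent.Lib.H94J.N7
import Pool.Agent.Lib.H94J.Defs

/-!
# Necessity: the Hessian of a nondegenerate law is an invariant form
-/

set_option autoImplicit false

namespace Pool.Agent.Lib.H94J

open Pool.Agent.Lib.H99JetCalc Pool.Agent.Lib.H29J GeometricSystem

variable {𝕜 : Type} [RCLike 𝕜] {N : ℕ}

section

theorem curv_skew (S : GeometricSystem 𝕜 N) (u : Fin N → 𝕜) (i j k l : Fin N) :
    S.curvComp u i j k l = - S.curvComp u i j l k := by
  unfold GeometricSystem.curvComp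
  ring

theorem curv_bianchi (S : GeometricSystem 𝕜 N) (hT : S.ZeroTorsion) {u : Fin N → 𝕜}
    (hu : u ∈ S.dom) (i j k l : Fin N) :
    S.curvComp u i j k l + S.curvComp u i k l j + S.curvComp u i l j k = 0 := by
  have hpd : ∀ m i j k, pdu m (fun u => S.α u i j k) u = pdu m (fun u => S.α u i k j) u := by
    intro m i j k
    unfold GeometricSystem.pdu
    have : (fun u => S.α u i j k) =ᶠ[nhds u] (fun u => S.α u i k j) := by
      filter_upwards [S.isOpen_dom.mem_nhds hu] with w hw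
      exact hT w hw i j k
    rw [this.fderiv_eq]
  have q : ∀ k j l, ∑ s, S.α u i s k * S.α u s j l = ∑ s, S.α u i s k * S.α u s l j := fun k j l =>
    Finset.sum_congr rfl fun s _ => by rw [hT u hu s j l]
  unfold GeometricSystem.curvComp
  rw [hpd k i l j, hpd l i k j, hpd j i l k, q k l j, q l k j, q j l k]
  ring

/-- value of the Hessian -/
theorem hess_val {Ω : Set (Jet 𝕜 N)} (hΩ : IsOpen Ω) (K : ℕ) (ρ : Jet 𝕜 N → 𝕜) (r : diffAlg Ω)
    (hr : ∀ j : Ω, ρ j = r.1 j) (a b : Fin N) (j : Ω) :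
    topHessian (K + 1) ρ j a b = (Sys.H (jetCalc hΩ) K r a b).1 j := by
  show jetDeriv (K + 1) a (jetDeriv (K + 1) b ρ) j = _
  have h1 : ∀ j : Ω, jetDeriv (K + 1) b ρ j = ((jetCalc hΩ).pd (K + 1) b r).1 j :=
    fun j => jetDeriv_eq hΩ r ρ hr (K + 1) b j
  rw [jetDeriv_eq hΩ ((jetCalc hΩ).pd (K + 1) b r) (jetDeriv (K + 1) b ρ) h1 (K + 1) a j]
  have : (jetCalc hΩ).pd (K + 1) a ((jetCalc hΩ).pd (K + 1) b r) =
      Sys.H (jetCalc hΩ) K r a b := (jetCalc hΩ).pd_comm _ _ _ _ _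
  rw [this]

/-- The function of `u` obtained from a differential function by freezing the derivatives. -/
theorem freeze {Ω : Set (Jet 𝕜 N)} (hΩ : IsOpen Ω) (j₀ : Jet 𝕜 N) (F : diffAlg Ω)
    (u : Fin N → 𝕜) (hu : Function.update j₀ 0 u ∈ Ω) :
    AnalyticAt 𝕜 (fun u => ext0 Ω F.1 (Function.update j₀ 0 u)) u ∧
      ∀ m, pdu m (fun u => ext0 Ω F.1 (Function.update j₀ 0 u)) u =
        ((jetCalc hΩ).pd 0 m F).1 ⟨Function.update j₀ 0 u, hu⟩ := by
  obtain ⟨k, f, hf⟩ : ∃ k f, Rep Ω k f F.1 := F.2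
  obtain ⟨L, hL⟩ : ∃ L : (Fin N → 𝕜) →L[𝕜] (Fin (k + 1) → Fin N → 𝕜),
      L = ContinuousLinearMap.pi (fun n => if n = 0 then ContinuousLinearMap.id 𝕜 (Fin N → 𝕜)
        else 0) := ⟨_, rfl⟩
  have hcont : Continuous (fun u : Fin N → 𝕜 => Function.update j₀ 0 u) := by fun_prop
  have hev : ∀ᶠ w in nhds u, Function.update j₀ 0 w ∈ Ω :=
    hcont.continuousAt (hΩ.mem_nhds hu)
  have hlin : ∀ w, trunc k (Function.update j₀ 0 w) = trunc k (Function.update j₀ 0 0) + L w := by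
    intro w
    funext n
    show Function.update j₀ 0 w n = Function.update j₀ 0 0 n + L w n
    rw [hL]
    by_cases hn : n = 0
    · subst hn
      simp
    · have hn' : (n : ℕ) ≠ 0 := fun h => hn (Fin.ext h)
      rw [Function.update_of_ne hn', Function.update_of_ne hn']
      simp [hn]
  have heq : (fun w => ext0 Ω F.1 (Function.update j₀ 0 w)) =ᶠ[nhds u]
      (fun w => f (trunc k (Function.update j₀ 0 0) + L w)) := by
    filter_upwards [hev] with w hw
    rw [← hlin]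
    exact (hf.ext0 _ hw).2
  have hfa : AnalyticAt 𝕜 f (trunc k (Function.update j₀ 0 0) + L u) := by
    rw [← hlin]; exact (hf ⟨_, hu⟩).1
  have hin : AnalyticAt 𝕜 (fun w => trunc k (Function.update j₀ 0 0) + L w) u :=
    analyticAt_const.add (L.analyticAt u)
  have hcomp : AnalyticAt 𝕜 (fun w => f (trunc k (Function.update j₀ 0 0) + L w)) u :=
    AnalyticAt.comp (g := f) (f := fun w => trunc k (Function.update j₀ 0 0) + L w) hfa hin
  refine ⟨hcomp.congr heq.symm, fun m => ?_⟩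
  unfold GeometricSystem.pdu
  rw [heq.fderiv_eq]
  have hd1 : HasFDerivAt (fun w => trunc k (Function.update j₀ 0 0) + L w) L u :=
    L.hasFDerivAt.const_add _
  have hd2 : HasFDerivAt (fun w => f (trunc k (Function.update j₀ 0 0) + L w))
      ((fderiv 𝕜 f (trunc k (Function.update j₀ 0 0) + L u)).comp L) u :=
    HasFDerivAt.comp (g := f) u hfa.differentiableAt.hasFDerivAt hd1
  rw [hd2.fderiv, ContinuousLinearMap.comp_apply, ← hlin]
  have e1 : ((jetCalc hΩ).pd 0 m F).1 ⟨Function.update j₀ 0 u, hu⟩ =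
      fderiv 𝕜 f (trunc k (Function.update j₀ 0 u)) (trunc k (eJet 0 m)) :=
    along_apply hΩ _ hf ⟨_, hu⟩
  rw [e1]
  congr 1
  funext n
  show L (Pi.single m 1) n = (Pi.single 0 (Pi.single m 1) : Jet 𝕜 N) n
  rw [hL]
  by_cases hn : n = 0
  · subst hn; simp
  · have hn' : (n : ℕ) ≠ 0 := fun h => hn (Fin.ext h)
    rw [Pi.single_apply, if_neg hn']
    simp [hn]

end

end Pool.Agent.Lib.H94J
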