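import Pool.Agent.Lib.H94J.N8

/-!
# Necessity: assembly
-/

set_option autoImplicit false

namespace Pool.Agent.Lib.H94J

open Pool.Agent.Lib.H99JetCalc Pool.Agent.Lib.H29J GeometricSystem

variable {𝕜 : Type} [RCLike 𝕜] {N : ℕ}

/-- The Hessian of a conserved density, with the hypothesis on the pointwise algebra. -/
theorem law_form_aux (S : GeometricSystem 𝕜 N) (hT : S.ZeroTorsion)
    (hpt : ∀ u ∈ S.dom, ∀ H : Fin N → Fin N → 𝕜, (∀ a b, H a b = H b a) →
      (∀ a b c d, ∑ i, H i b * S.curvComp u i a d c + ∑ i, H i a * S.curvComp u i b d c = 0) →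
      (∀ a b c d, ∑ i, H i b * (6 * S.β u i c d a + S.curvComp u i c a d + S.curvComp u i d a c) =
        ∑ i, H i a * (6 * S.β u i c d b + S.curvComp u i c b d + S.curvComp u i d b c)) →
      ∀ X Y Z W, bil H (S.σ u X Y Z) W = bil H Z (S.σ u Y X W))
    {Ω : Set (Jet 𝕜 N)} (hΩ : IsOpen Ω) (hd : ∀ j ∈ Ω, j 0 ∈ S.dom) (K m : ℕ)
    (ρ θ : Jet 𝕜 N → 𝕜) (hρ : IsDifferentialFunction (K + 1) Ω ρ)
    (hθ : IsDifferentialFunction m Ω θ)
    (hcons : ∀ j ∈ Ω, evolDeriv S.rhs ρ j = totalDeriv θ j)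
    (j₀ : Jet 𝕜 N) (hj₀ : j₀ ∈ Ω) (hdet : (topHessian (K + 1) ρ j₀).det ≠ 0) :
    ∃ U : Set (Fin N → 𝕜), IsOpen U ∧ j₀ 0 ∈ U ∧ U ⊆ S.dom ∧
      ∃ g : (Fin N → 𝕜) → Fin N → Fin N → 𝕜, InvForm S U g ∧
        ∀ u ∈ U, Matrix.of (g u) = topHessian (K + 1) ρ (Function.update j₀ 0 u) := by
  obtain ⟨f, hf⟩ := hρ
  obtain ⟨t, ht⟩ := hθ
  obtain ⟨r, hr⟩ : ∃ r : diffAlg Ω, r = ⟨fun j => ρ j, K + 1, f, fun j => hf j j.2⟩ := ⟨_, rfl⟩
  obtain ⟨q, hq⟩ : ∃ q : diffAlg Ω, q = ⟨fun j => θ j, m, t, fun j => ht j j.2⟩ := ⟨_, rfl⟩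
  have hrep : Rep Ω (K + 1) f r.1 := by rw [hr]; exact fun j => hf j j.2
  have hrρ : ∀ j : Ω, ρ j = r.1 j := fun _ => by rw [hr]
  have hqθ : ∀ j : Ω, θ j = q.1 j := fun _ => by rw [hq]
  have hord : ∀ n, K + 1 < n → ∀ i, (jetCalc hΩ).pd n i r = 0 := fun n hn i =>
    pd_Ord hΩ hn i ⟨f, hrep⟩
  obtain ⟨s, hs⟩ : ∃ s, s = sysO S hd hΩ hT := ⟨_, rfl⟩
  have hF : ∀ (j : Ω) (i : Fin N), S.rhs j i = (s.F i).1 j := fun j i => by
    rw [hs]; exact sysO_F S hd hΩ hT j i
  have hlaw : s.Dt (K + 1) r = (jetCalc hΩ).D q := by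
    apply Subtype.ext
    funext j
    have h1 := hcons j j.2
    rw [evolDeriv_ev hΩ S.rhs s.F hF ρ r hrρ j, totalDeriv_eq hΩ q θ hqθ j] at h1
    rw [← h1]
    have h2 : ev hΩ s.F r = s.Dt (K + 1) r := along_eq_sum hΩ _ hrep
    rw [h2]
  -- the form
  obtain ⟨g, hg⟩ : ∃ g : (Fin N → 𝕜) → Fin N → Fin N → 𝕜, g = fun u a b =>
    ext0 Ω (Sys.H (jetCalc hΩ) K r a b).1 (Function.update j₀ 0 u) := ⟨_, rfl⟩
  have hcont : Continuous (fun u : Fin N → 𝕜 => Function.update j₀ 0 u) := by fun_prop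
  obtain ⟨V, hV⟩ : ∃ V : Set (Fin N → 𝕜), V = {u | Function.update j₀ 0 u ∈ Ω} := ⟨_, rfl⟩
  have hVo : IsOpen V := by rw [hV]; exact hΩ.preimage hcont
  have hVd : V ⊆ S.dom := by
    intro u hu
    rw [hV] at hu
    have := hd _ hu
    rwa [Function.update_self] at this
  have hgval : ∀ u (hu : Function.update j₀ 0 u ∈ Ω) a b,
      g u a b = evj ⟨_, hu⟩ (Sys.H (jetCalc hΩ) K r a b) := by
    intro u hu a b
    rw [hg]
    exact ext0_mem _ ⟨_, hu⟩
  have hgan : ∀ a b, AnalyticOnNhd 𝕜 (fun u => g u a b) V := by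
    intro a b u hu
    rw [hV] at hu
    rw [hg]
    exact (freeze hΩ j₀ _ u hu).1
  have hgh : ∀ u ∈ V, Matrix.of (g u) = topHessian (K + 1) ρ (Function.update j₀ 0 u) := by
    intro u hu
    rw [hV] at hu
    ext a b
    rw [Matrix.of_apply, hgval u hu]
    exact (hess_val hΩ K ρ r hrρ a b ⟨_, hu⟩).symm
  have hdetc : ContinuousOn (fun u => (Matrix.of (g u)).det) V := by
    have : ContinuousOn (fun u => Matrix.of (g u)) V := by
      refine continuousOn_pi.mpr fun a => continuousOn_pi.mpr fun b => ?_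
      exact (hgan a b).continuousOn
    exact (continuous_id.matrix_det).comp_continuousOn this
  obtain ⟨U, hU⟩ : ∃ U : Set (Fin N → 𝕜), U = V ∩ (fun u => (Matrix.of (g u)).det) ⁻¹' {0}ᶜ :=
    ⟨_, rfl⟩
  have hUo : IsOpen U := by
    rw [hU]; exact hdetc.isOpen_inter_preimage hVo isOpen_compl_singleton
  have hUV : U ⊆ V := by rw [hU]; exact Set.inter_subset_left
  have hj₀' : Function.update j₀ 0 (j₀ 0) = j₀ := Function.update_eq_self 0 j₀
  have hj₀V : j₀ 0 ∈ V := by rw [hV]; show Function.update j₀ 0 (j₀ 0) ∈ Ω; rw [hj₀']; exact hj₀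
  have hsymm : ∀ u ∈ V, ∀ a b, g u a b = g u b a := by
    intro u hu a b
    rw [hV] at hu
    rw [hgval u hu, hgval u hu, Sys.H_symm]
  refine ⟨U, hUo, ?_, hUV.trans hVd, g, ?_, fun u hu => hgh u (hUV hu)⟩
  · rw [hU]
    refine ⟨hj₀V, ?_⟩
    show (Matrix.of (g (j₀ 0))).det ≠ 0
    rw [hgh _ hj₀V, hj₀']
    exact hdet
  · refine ⟨fun a b => (hgan a b).mono hUV, fun u hu => hsymm u (hUV hu), ?_, ?_, ?_⟩
    · intro u hu
      rw [hU] at hu
      exact hu.2
    · intro u hu c a b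
      have hu' : Function.update j₀ 0 u ∈ Ω := by have := hUV hu; rw [hV] at this; exact this
      obtain ⟨jj, hjj⟩ : ∃ jj : Ω, jj = ⟨Function.update j₀ 0 u, hu'⟩ := ⟨_, rfl⟩
      have hj0 : jj.1 0 = u := by rw [hjj]; exact Function.update_self 0 u j₀
      have hgv : ∀ a b, g u a b = evj jj (Sys.H (jetCalc hΩ) K r a b) := fun a b => by
        rw [hjj]; exact hgval u hu' a b
      have h1 := (freeze hΩ j₀ (Sys.H (jetCalc hΩ) K r a b) u hu').2 c
      rw [← hjj] at h1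
      have h2 : (fun u => g u a b) = fun u =>
        ext0 Ω (Sys.H (jetCalc hΩ) K r a b).1 (Function.update j₀ 0 u) := by rw [hg]
      rw [h2, h1, ← evj_apply, s.H_parallel hord hlaw, map_sum]
      refine Finset.sum_congr rfl fun i _ => ?_
      have hal : s.al = alO S hd := by rw [hs]; rfl
      rw [map_add, map_mul, map_mul, hal, evj_al, evj_al, ← hgv, ← hgv,
        hsymm u (hUV hu) i a, hj0]
      ring
    · intro u hu
      have hu' : Function.update j₀ 0 u ∈ Ω := by have := hUV hu; rw [hV] at this; exact this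
      have hud : u ∈ S.dom := hVd (hUV hu)
      obtain ⟨jj, hjj⟩ : ∃ jj : Ω, jj = ⟨Function.update j₀ 0 u, hu'⟩ := ⟨_, rfl⟩
      have hj0 : jj.1 0 = u := by rw [hjj]; exact Function.update_self 0 u j₀
      have hgv : ∀ a b, g u a b = evj jj (Sys.H (jetCalc hΩ) K r a b) := fun a b => by
        rw [hjj]; exact hgval u hu' a b
      refine hpt u hud (g u) (hsymm u (hUV hu)) ?_ ?_
      · intro a b c d
        have h1 := congrArg (evj jj) (s.H_curv hord hlaw a b c d)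
        rw [map_add, map_sum, map_sum, map_zero] at h1
        rw [← h1]
        congr 1
        · refine Finset.sum_congr rfl fun i _ => ?_
          rw [map_mul, ← hgv, hs, evj_Rc, hj0]
        · refine Finset.sum_congr rfl fun i _ => ?_
          rw [map_mul, ← hgv, hs, evj_Rc, hj0]
      · intro a b c d
        have hP2 : ∀ n, 2 ≤ n → ∀ c i a, (jetCalc hΩ).pd n c (s.Psi i a) = 0 := by
          intro n hn c i a
          rw [hs]
          exact Sys.mk_Psi2 _ _ _ n hn c i a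
        have h1 := congrArg (evj jj) (s.sym hord hlaw hP2 a b c d)
        have h3 : ∀ i a, evj jj ((jetCalc hΩ).pd 1 d ((jetCalc hΩ).pd 1 c (s.Psi i a))) =
            6 * S.β u i c d a + S.curvComp u i c a d + S.curvComp u i d a c := by
          intro i a
          have h4 := Sys.mk_Psi3 (alO_symm S hd hT) (fun n c i j k hn => alO_pd S hd hΩ n c i j k hn)
            (fun n c i p q r hn => phO_pd S hd hΩ n c i p q r hn) (beO_1 S hd) (beO_2 S hd)
            (fun i p q r => rfl) c d i a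
          have h5 : (jetCalc hΩ).pd 1 d ((jetCalc hΩ).pd 1 c (s.Psi i a)) =
              6 * beO S hd i c d a + s.Rc i c a d + s.Rc i d a c := by
            rw [hs]; exact h4
          have e6 : (evj jj) (6 : diffAlg Ω) = 6 := map_ofNat _ 6
          rw [h5, map_add, map_add, map_mul, e6, evj_be, hs, evj_Rc, evj_Rc, hj0]
        rw [map_sum, map_sum] at h1
        have h6 : ∀ a b, ∑ i, evj jj (Sys.H (jetCalc hΩ) K r i b *
            (jetCalc hΩ).pd 1 d ((jetCalc hΩ).pd 1 c (s.Psi i a))) =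
            ∑ i, g u i b * (6 * S.β u i c d a + S.curvComp u i c a d + S.curvComp u i d a c) := by
          intro a b
          refine Finset.sum_congr rfl fun i _ => ?_
          rw [map_mul, h3, ← hgv]
        rw [h6, h6] at h1
        exact h1

end Pool.Agent.Lib.H94J
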