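import Pool.Agent.Lib.H94J.R1

/-!
# Reduction modulo total derivatives
-/

set_option autoImplicit false

namespace Pool.Agent.Lib.H94J

open Pool.Agent.Lib.H99JetCalc Pool.Agent.Lib.H29J

variable {𝕜 : Type} [RCLike 𝕜] {N : ℕ}

section

variable {Ω : Set (Jet 𝕜 N)} (hΩ : IsOpen Ω)

theorem len_le_wt (l : List (ℕ × Fin N)) (hl : ∀ p ∈ l, 1 ≤ p.1) : l.length ≤ wt l := by
  induction l with
  | nil => simp
  | cons p l ih =>
    have h1 := ih fun q hq => hl q (by simp [hq])
    have h2 := hl p (by simp)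
    have e : wt (p :: l) = p.1 + wt l := by unfold wt; rw [List.map_cons, List.sum_cons]
    rw [e, List.length_cons]; omega

theorem wt_cons (p : ℕ × Fin N) (l : List (ℕ × Fin N)) : wt (p :: l) = p.1 + wt l := by
  unfold wt; rw [List.map_cons, List.sum_cons]

theorem wt_perm {l l' : List (ℕ × Fin N)} (h : l.Perm l') : wt l = wt l' := by
  unfold wt; exact (h.map _).sum_eq

/-- R3: at most one factor has the top order. -/
theorem P_split {w d M : ℕ} (h : w + 2 < 2 * (M + 1) + d) {f : diffAlg Ω}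
    (hf : f ∈ P Ω w d (M + 1)) :
    ∃ f0 ∈ P Ω w d M, ∃ hh : Fin N → diffAlg Ω, (∀ i, hh i ∈ P Ω (w - (M + 1)) (d - 1) M) ∧
      f = f0 + ∑ i, X Ω (M + 1) i * hh i := by
  induction hf using Submodule.span_induction with
  | mem f hf =>
    obtain ⟨c, hc, l, hl, hw, hd, rfl⟩ := hf
    by_cases hex : ∃ p ∈ l, p.1 = M + 1
    · obtain ⟨p, hp, hpM⟩ := hex
      obtain ⟨l', hl'⟩ : ∃ l', l.Perm (p :: l') := ⟨_, List.perm_cons_erase hp⟩
      have hw' : w = M + 1 + wt l' := by rw [← hw, wt_perm hl', wt_cons, hpM]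
      have hlen : l.length = l'.length + 1 := by rw [hl'.length_eq, List.length_cons]
      have hmem : ∀ q ∈ l', 1 ≤ q.1 ∧ q.1 ≤ M + 1 := fun q hq =>
        hl q (hl'.mem_iff.mpr (List.mem_cons_of_mem p hq))
      have hmem' : ∀ q ∈ l', 1 ≤ q.1 ∧ q.1 ≤ M := by
        intro q hq
        refine ⟨(hmem q hq).1, ?_⟩
        by_contra hcon
        have hqM : q.1 = M + 1 := by have := (hmem q hq).2; omega
        obtain ⟨l'', hl''⟩ : ∃ l'', l'.Perm (q :: l'') := ⟨_, List.perm_cons_erase hq⟩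
        have h1 : wt l' = M + 1 + wt l'' := by rw [wt_perm hl'', wt_cons, hqM]
        have h2 : l'.length = l''.length + 1 := by rw [hl''.length_eq, List.length_cons]
        have h3 : l''.length ≤ wt l'' := len_le_wt l'' fun r hr =>
          (hmem r (hl''.mem_iff.mpr (List.mem_cons_of_mem q hr))).1
        omega
      refine ⟨0, zero_mem _, fun i => if i = p.2 then c * xs Ω l' else 0, ?_, ?_⟩
      · intro i
        by_cases hi : i = p.2
        · simp only [hi, if_true]
          apply Submodule.subset_span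
          exact ⟨c, hc, l', hmem', by omega, by omega, rfl⟩
        · simp only [hi, if_false]; exact zero_mem _
      · rw [xs_perm hl', xs_cons, zero_add]
        simp only [mul_ite, mul_zero, Finset.sum_ite_eq', Finset.mem_univ, if_true, hpM]
        ring
    · push Not at hex
      refine ⟨c * xs Ω l, ?_, fun _ => 0, fun _ => zero_mem _, by simp⟩
      apply Submodule.subset_span
      refine ⟨c, hc, l, fun p hp => ⟨(hl p hp).1, ?_⟩, hw, hd, rfl⟩
      have h1 := (hl p hp).2
      have h2 := hex p hp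
      omega
  | zero => exact ⟨0, zero_mem _, fun _ => 0, fun _ => zero_mem _, by simp⟩
  | add x y _ _ h1 h2 =>
    obtain ⟨a, ha, u, hu, e1⟩ := h1
    obtain ⟨b, hb, v, hv, e2⟩ := h2
    refine ⟨a + b, add_mem ha hb, fun i => u i + v i, fun i => add_mem (hu i) (hv i), ?_⟩
    rw [e1, e2]
    simp only [mul_add, Finset.sum_add_distrib]
    ring
  | smul t x _ h1 =>
    obtain ⟨a, ha, u, hu, e1⟩ := h1
    refine ⟨t • a, Submodule.smul_mem _ _ ha, fun i => t • u i,
      fun i => Submodule.smul_mem _ _ (hu i), ?_⟩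
    rw [e1, smul_add, Finset.smul_sum]
    simp only [mul_smul_comm]

/-- R4: reduction of the order modulo total derivatives. -/
theorem P_reduce (m : ℕ) (M : ℕ) (hM : m + 1 ≤ M) : ∀ f ∈ P Ω (2 * m + 2) 3 M,
    ∃ η : diffAlg Ω, f - (jetCalc hΩ).D η ∈ P Ω (2 * m + 2) 3 (m + 1) := by
  induction M, hM using Nat.le_induction with
  | base => intro f hf; exact ⟨0, by rw [map_zero, sub_zero]; exact hf⟩
  | succ M hM ih =>
    intro f hf
    obtain ⟨f0, hf0, hh, hhm, e⟩ := P_split (by omega) hf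
    have h1 : ∀ i, X Ω M i * (jetCalc hΩ).D (hh i) ∈ P Ω (2 * m + 2) 3 M := by
      intro i
      have a1 : hh i ∈ P Ω (2 * m + 2 - (M + 1)) 2 (2 * m + 2 - (M + 1)) := P_wt (hhm i)
      have a2 := P_D hΩ a1
      have hM1 : 1 ≤ M := by omega
      have a0 : X Ω M i ∈ P Ω M 1 M := P_X hM1 i
      have ale : 2 * m + 2 - (M + 1) + 1 ≤ M := by omega
      have a3 := P_mul a0 (P_mono (le_refl 2) ale a2)
      by_cases hle : M + 1 ≤ 2 * m + 2
      · have e2 : M + (2 * m + 2 - (M + 1) + 1) = 2 * m + 2 := by omega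
        rw [e2] at a3
        exact a3
      · -- then hh i = 0
        have a4 : hh i ∈ P Ω 0 2 0 := by
          have : 2 * m + 2 - (M + 1) = 0 := by omega
          rw [this] at a1; exact a1
        have a5 : hh i = 0 := by
          have : P Ω 0 2 0 ≤ (⊥ : Submodule 𝕜 (diffAlg Ω)) := by
            apply Submodule.span_le.mpr
            rintro f ⟨c, hc, l, hl, hw, hd, rfl⟩
            exfalso
            have := len_le_wt l fun p hp => (hl p hp).1
            omega
          exact (Submodule.mem_bot 𝕜).mp (this a4)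
        rw [a5, map_zero, mul_zero]; exact zero_mem _
    obtain ⟨η, hη⟩ := ih (f0 - ∑ i, X Ω M i * (jetCalc hΩ).D (hh i))
      (sub_mem hf0 (Submodule.sum_mem _ fun i _ => h1 i))
    refine ⟨η + ∑ i, X Ω M i * hh i, ?_⟩
    have e2 : f - (jetCalc hΩ).D (η + ∑ i, X Ω M i * hh i) =
        f0 - ∑ i, X Ω M i * (jetCalc hΩ).D (hh i) - (jetCalc hΩ).D η := by
      rw [e, map_add, map_sum]
      simp only [Derivation.leibniz, smul_eq_mul, D_Xn, Finset.sum_add_distrib]
      have : ∑ i, hh i * X Ω (M + 1) i = ∑ i, X Ω (M + 1) i * hh i :=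
        Finset.sum_congr rfl fun i _ => mul_comm _ _
      rw [this]
      ring
    rw [e2]; exact hη

/-- R5: the reduced remainder has vanishing top Hessian. -/
theorem P_hess (m : ℕ) {f : diffAlg Ω} (hf : f ∈ P Ω (2 * m + 2) 3 (m + 1)) (a b : Fin N) :
    (jetCalc hΩ).pd (m + 1) a ((jetCalc hΩ).pd (m + 1) b f) = 0 := by
  obtain ⟨f0, hf0, hh, hhm, e⟩ := P_split (by omega) hf
  have h0 : (jetCalc hΩ).pd (m + 1) b f0 = 0 := pd_Ord hΩ (Nat.lt_succ_self m) b (P_le_Ord hf0)
  have h1 : ∀ i c, (jetCalc hΩ).pd (m + 1) c (hh i) = 0 := fun i c =>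
    pd_Ord hΩ (Nat.lt_succ_self m) c (P_le_Ord (hhm i))
  have h2 : (jetCalc hΩ).pd (m + 1) b f = hh b := by
    rw [e, map_add, h0, map_sum, zero_add]
    simp only [Derivation.leibniz, smul_eq_mul, h1, mul_zero, zero_add]
    have hX : ∀ i, (jetCalc hΩ).pd (m + 1) b (X Ω (m + 1) i) = if b = i then 1 else 0 := by
      intro i
      have := (jetCalc hΩ).pd_X (m + 1) b (m + 1) i
      simp only [true_and] at this
      exact this
    simp only [hX, mul_ite, mul_one, mul_zero, Finset.sum_ite_eq, Finset.mem_univ, if_true]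
  rw [h2, h1]

end

end Pool.Agent.Lib.H94J
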