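import Pool.Agent.Lib.H94J.R2
import Pool.Agent.Lib.H94J.Defs

/-!
# The densities: weights, leading terms, reduction
-/

set_option autoImplicit false

namespace Pool.Agent.Lib.H94J

open Pool.Agent.Lib.H99JetCalc Pool.Agent.Lib.H29J

variable {𝕜 : Type} [RCLike 𝕜] {N : ℕ}

section

variable (S : GeometricSystem 𝕜 N)

/-- vectors with components in `P w d M` -/
def VP (w d M : ℕ) (x : Fin N → diffAlg S.jets) : Prop := ∀ i, x i ∈ P S.jets w d M

variable {S}

theorem VP.mono {w d M d' M' : ℕ} {x : Fin N → diffAlg S.jets} (h : VP S w d M x) (hd : d' ≤ d)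
    (hM : M ≤ M') : VP S w d' M' x := fun i => P_mono hd hM (h i)

theorem VP.add {w d M : ℕ} {x y : Fin N → diffAlg S.jets} (h : VP S w d M x) (h' : VP S w d M y) :
    VP S w d M (x + y) := fun i => add_mem (h i) (h' i)

theorem VP.neg {w d M : ℕ} {x : Fin N → diffAlg S.jets} (h : VP S w d M x) :
    VP S w d M (-x) := fun i => neg_mem (h i)

theorem VP.smul {w d M : ℕ} {x : Fin N → diffAlg S.jets} (h : VP S w d M x) (c : 𝕜) :
    VP S w d M (c • x) := fun i => Submodule.smul_mem _ c (h i)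

theorem VP.zero {w d M : ℕ} : VP S w d M (0 : Fin N → diffAlg S.jets) := fun _ => zero_mem _

theorem VP.sum {w d M : ℕ} {ι : Type} (s : Finset ι) {x : ι → Fin N → diffAlg S.jets}
    (h : ∀ i ∈ s, VP S w d M (x i)) : VP S w d M (∑ i ∈ s, x i) := by
  intro j
  rw [Finset.sum_apply]
  exact Submodule.sum_mem _ fun i hi => h i hi j

theorem VP_vel : VP S 1 1 1 (vel S) := fun i => P_X le_rfl i

theorem GW_P (i k : Fin N) : GW S (vel S) i k ∈ P S.jets 1 1 1 :=
  Submodule.sum_mem _ fun s _ => P_cmul (toA_Ord S _ _) (VP_vel s)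

variable (h2 : S.C2) (h4 : S.C4) (h5 : S.C5)

theorem VP.nab {w d M : ℕ} {x : Fin N → diffAlg S.jets} (h : VP S w d M x) :
    VP S (w + 1) d (M + 1) ((nab S h2 h4 h5 (vel S)).f x) := by
  intro i
  rw [nab_f, ev_vel]
  refine add_mem (P_D (isOpen_jets S) (h i)) (Submodule.sum_mem _ fun k _ => ?_)
  have h1 := P_mul (P_mono (M' := M + 1) (le_refl 1) (by omega) (GW_P i k))
    (P_mono (M' := M + 1) (le_refl d) (by omega) (h k))
  rw [add_comm 1 w] at h1
  exact P_mono (by omega) le_rfl h1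

theorem VP.tri {w d w' d' w'' d'' M : ℕ} {x y z : Fin N → diffAlg S.jets} (hx : VP S w d M x)
    (hy : VP S w' d' M y) (hz : VP S w'' d'' M z) :
    VP S (w + w' + w'') (d + d' + d'') M ((jts S h4 h5).tri x y z) := by
  intro i
  show triL (Sg S) x y z i ∈ _
  rw [triL_apply]
  exact Submodule.sum_mem _ fun j _ => Submodule.sum_mem _ fun k _ => Submodule.sum_mem _
    fun l _ => P_mul (P_mul (P_cmul (toA_Ord S _ _) (hx j)) (hy k)) (hz l)

/-- The Riccati recursion. -/
structure IsRic (x : ℕ → Fin N → diffAlg S.jets) : Prop where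
  zero : x 0 = 0
  one : x 1 = vel S
  succ : ∀ k, 1 ≤ k → x (k + 1) = -((nab S h2 h4 h5 (vel S)).f (x k)) +
    (1 / 2 : 𝕜) • ∑ p ∈ Finset.HasAntidiagonal.antidiagonal k, (jts S h4 h5).tri (x p.1) (vel S) (x p.2)

variable {h2 h4 h5}

theorem ric_tri {x : ℕ → Fin N → diffAlg S.jets} (hx : IsRic h2 h4 h5 x) {k : ℕ}
    (h : ∀ j, 1 ≤ j → j ≤ k → VP S j 1 j (x j)) :
    VP S (k + 1) 3 (k + 1) (∑ p ∈ Finset.HasAntidiagonal.antidiagonal k,
      (jts S h4 h5).tri (x p.1) (vel S) (x p.2)) := by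
  refine VP.sum _ fun p hp => ?_
  have hp' := Finset.HasAntidiagonal.mem_antidiagonal.mp hp
  rcases Nat.eq_zero_or_pos p.1 with h0 | h0
  · rw [h0, hx.zero, map_zero]
    exact VP.zero
  rcases Nat.eq_zero_or_pos p.2 with h1 | h1
  · rw [h1, hx.zero, map_zero]
    exact VP.zero
  have a1 := (h p.1 h0 (by omega)).mono (M' := k + 1) le_rfl (by omega)
  have a2 := (h p.2 h1 (by omega)).mono (M' := k + 1) le_rfl (by omega)
  have a3 := (VP_vel (S := S)).mono (M' := k + 1) le_rfl (by omega)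
  have a4 := VP.tri h4 h5 a1 a3 a2
  have e : p.1 + 1 + p.2 = k + 1 := by omega
  rw [e] at a4
  exact a4

/-- R6, first half. -/
theorem ric_wt {x : ℕ → Fin N → diffAlg S.jets} (hx : IsRic h2 h4 h5 x) :
    ∀ k, 1 ≤ k → VP S k 1 k (x k) := by
  intro k
  induction k using Nat.strong_induction_on with
  | _ k ih =>
    intro hk
    rcases Nat.lt_or_ge 1 k with h | h
    · obtain ⟨k, rfl⟩ : ∃ k', k = k' + 1 := ⟨k - 1, by omega⟩
      rw [hx.succ k (by omega)]
      refine VP.add (VP.neg ((ih k (by omega) (by omega)).nab h2 h4 h5)) (VP.smul ?_ _)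
      exact (ric_tri hx fun j h1 h2 => ih j (by omega) h1).mono (by omega) le_rfl
    · have : k = 1 := by omega
      rw [this, hx.one]; exact VP_vel

/-- R6, second half: the leading term. -/
theorem ric_lead {x : ℕ → Fin N → diffAlg S.jets} (hx : IsRic h2 h4 h5 x) (k : ℕ) :
    VP S (k + 1) 3 (k + 1)
      (x (k + 1) - (-1 : 𝕜) ^ k • ((nab S h2 h4 h5 (vel S)).f)^[k] (vel S)) := by
  induction k with
  | zero =>
    rw [hx.one, pow_zero, one_smul, Function.iterate_zero, id, sub_self]; exact VP.zero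
  | succ k ih =>
    have e : x (k + 1 + 1) - (-1 : 𝕜) ^ (k + 1) • ((nab S h2 h4 h5 (vel S)).f)^[k + 1] (vel S) =
        -((nab S h2 h4 h5 (vel S)).f
          (x (k + 1) - (-1 : 𝕜) ^ k • ((nab S h2 h4 h5 (vel S)).f)^[k] (vel S)))
        + (1 / 2 : 𝕜) • ∑ p ∈ Finset.HasAntidiagonal.antidiagonal (k + 1),
          (jts S h4 h5).tri (x p.1) (vel S) (x p.2) := by
      rw [hx.succ (k + 1) (by omega), map_sub, map_smul, Function.iterate_succ_apply', pow_succ]
      module
    rw [e]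
    exact VP.add (VP.neg (ih.nab h2 h4 h5)) (VP.smul (ric_tri hx fun j h1 _ => ric_wt hx j h1) _)

variable (h2 h4 h5)

/-- The solution of the Riccati recursion. -/
noncomputable def ric : ℕ → Fin N → diffAlg S.jets
  | 0 => 0
  | 1 => vel S
  | (k + 2) => -((nab S h2 h4 h5 (vel S)).f (ric (k + 1))) +
    (1 / 2 : 𝕜) • ∑ i : Fin (k + 2),
      (jts S h4 h5).tri (ric i.1) (vel S) (ric (k + 1 - i.1))
termination_by k => k
decreasing_by all_goals omega

theorem ric_isRic : IsRic h2 h4 h5 (ric h2 h4 h5) where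
  zero := by rw [ric]
  one := by rw [ric]
  succ k hk := by
    obtain ⟨k, rfl⟩ : ∃ k', k = k' + 1 := ⟨k - 1, by omega⟩
    rw [ric, Finset.Nat.sum_antidiagonal_eq_sum_range_succ_mk, Finset.sum_range]

end

end Pool.Agent.Lib.H94J
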