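import Pool.Agent.Lib.H94J.Defs
import Pool.Agent.Lib.H29J.H

/-!
# T1: the pointwise invariance of the form
-/

set_option autoImplicit false

namespace Pool.Agent.Lib.H94J

open Pool.Agent.Lib.H99JetCalc Pool.Agent.Lib.H29J GeometricSystem

theorem pt_pair {K : Type} [Field K] [CharZero K] {ι : Type} (r : ι → ι → ι → ι → K)
    (s1 : ∀ x y z w, r x y z w = -r x z y w) (s2 : ∀ x y z w, r x y z w = -r w y z x)
    (b : ∀ x y z w, r x y z w + r y z x w + r z x y w = 0) (x y z w : ι) :
    r x y z w = r y x w z := by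
  have b1 := b x y z w
  have b2 := b w y z x
  have b3 := b x z w y
  have b4 := b x y w z
  have f1 := s2 w y z x
  have f2 := s2 y z w x
  have e3 := s1 z w y x
  have g1 := s2 z w x y
  have g1' := s1 y w x z
  have g2 := s2 w x z y
  have g2' := s1 y x z w
  have h1 := s2 x y w z
  have h2 := s1 y w x z
  have h3 := s2 w x y z
  have h4 : (2 : K) * (r x y z w - r y x w z) = 0 := by
    linear_combination b1 - (b2 - f1 - f2 - e3) - (b3 - (g1 - g1') - (g2 - g2'))
      + (b4 - h1 - h2 - h3)
  have h5 := (mul_eq_zero.mp h4).resolve_left two_ne_zero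
  exact sub_eq_zero.mp h5

/-- The pointwise algebra. -/
theorem pt_inv {K : Type} [Field K] [CharZero K] {N : ℕ} (H : Fin N → Fin N → K)
    (be R : Fin N → Fin N → Fin N → Fin N → K) (hH : ∀ a b, H a b = H b a)
    (hb1 : ∀ i p q r, be i p q r = be i q p r) (hb2 : ∀ i p q r, be i p q r = be i p r q)
    (R1 : ∀ i j k l, R i j k l = -R i j l k)
    (R2 : ∀ i j k l, R i j k l + R i k l j + R i l j k = 0)
    (R3 : ∀ a b c d, (∑ i, H i b * R i a d c) + (∑ i, H i a * R i b d c) = 0)
    (hS : ∀ a b c d, ∑ i, H i b * (6 * be i c d a + R i c a d + R i d a c) =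
      ∑ i, H i a * (6 * be i c d b + R i c b d + R i d b c)) :
    ∀ j k l w, ∑ i, H i w * (be i j k l - 1 / 3 * R i j k l + 1 / 3 * R i l j k) =
      ∑ i, H l i * (be i k j w - 1 / 3 * R i k j w + 1 / 3 * R i w k j) := by
  obtain ⟨r, hr⟩ : ∃ r : Fin N → Fin N → Fin N → Fin N → K,
    r = fun x y z w => ∑ i, H i w * R i x y z := ⟨_, rfl⟩
  obtain ⟨B, hB⟩ : ∃ B : Fin N → Fin N → Fin N → Fin N → K,
    B = fun x y z w => ∑ i, H i w * be i x y z := ⟨_, rfl⟩
  have s1 : ∀ x y z w, r x y z w = -r x z y w := by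
    intro x y z w
    rw [hr]
    simp only
    rw [← Finset.sum_neg_distrib]
    refine Finset.sum_congr rfl fun i _ => ?_
    rw [R1 i x y z]; ring
  have s2 : ∀ x y z w, r x y z w = -r w y z x := by
    intro x y z w
    rw [hr]
    exact eq_neg_of_add_eq_zero_left (R3 x w z y)
  have cy : ∀ x y z w, r x y z w + r y z x w + r z x y w = 0 := by
    intro x y z w
    rw [hr]
    simp only
    rw [← Finset.sum_add_distrib, ← Finset.sum_add_distrib]
    refine Finset.sum_eq_zero fun i _ => ?_
    rw [← mul_add, ← mul_add, R2, mul_zero]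
  have pr := pt_pair r s1 s2 cy
  have B1 : ∀ x y z w, B x y z w = B y x z w := by
    intro x y z w; rw [hB]
    exact Finset.sum_congr rfl fun i _ => by rw [hb1]
  have B2 : ∀ x y z w, B x y z w = B x z y w := by
    intro x y z w; rw [hB]
    exact Finset.sum_congr rfl fun i _ => by rw [hb2]
  have B3 : ∀ x y z w, B x y z w = B x y w z := by
    intro c d a b
    have h := hS a b c d
    have e1 : ∑ i, H i b * (6 * be i c d a + R i c a d + R i d a c) =
        6 * B c d a b + r c a d b + r d a c b := by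
      rw [hB, hr]
      simp only [Finset.mul_sum, ← Finset.sum_add_distrib]
      refine Finset.sum_congr rfl fun i _ => ?_
      ring
    have e2 : ∑ i, H i a * (6 * be i c d b + R i c b d + R i d b c) =
        6 * B c d b a + r c b d a + r d b c a := by
      rw [hB, hr]
      simp only [Finset.mul_sum, ← Finset.sum_add_distrib]
      refine Finset.sum_congr rfl fun i _ => ?_
      ring
    rw [e1, e2] at h
    have q1 : r c a d b = r d b c a := by
      rw [pr c a d b, s1 a c b d, s2 a b c d, neg_neg]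
    have q2 : r d a c b = r c b d a := by
      rw [pr d a c b, s1 a d b c, s2 a b d c, neg_neg]
    rw [q1, q2] at h
    have h6 : (6 : K) * (B c d a b - B c d b a) = 0 := by linear_combination h
    exact sub_eq_zero.mp ((mul_eq_zero.mp h6).resolve_left (by norm_num))
  intro j k l w
  have e1 : ∑ i, H i w * (be i j k l - 1 / 3 * R i j k l + 1 / 3 * R i l j k) =
      B j k l w - 1 / 3 * r j k l w + 1 / 3 * r l j k w := by
    rw [hB, hr]
    simp only [Finset.mul_sum, ← Finset.sum_add_distrib, ← Finset.sum_sub_distrib]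
    refine Finset.sum_congr rfl fun i _ => ?_
    ring
  have e2 : ∑ i, H l i * (be i k j w - 1 / 3 * R i k j w + 1 / 3 * R i w k j) =
      B k j w l - 1 / 3 * r k j w l + 1 / 3 * r w k j l := by
    rw [hB, hr]
    simp only [Finset.mul_sum, ← Finset.sum_add_distrib, ← Finset.sum_sub_distrib]
    refine Finset.sum_congr rfl fun i _ => ?_
    rw [hH l i]
    ring
  have q1 : B k j w l = B j k l w := by rw [B1, B3]
  have q2 : r k j w l = r j k l w := (pr j k l w).symm
  have q3 : r w k j l = r l j k w := by rw [s2 w k j l, s1 l k j w, neg_neg]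
  rw [e1, e2, q1, q2, q3]

theorem sum4_rot {K : Type} [CommRing K] {N : ℕ} (F : Fin N → Fin N → Fin N → Fin N → K) :
    ∑ w, ∑ j, ∑ k, ∑ l, F j k l w = ∑ j, ∑ k, ∑ l, ∑ w, F j k l w := by
  rw [Finset.sum_comm]
  refine Finset.sum_congr rfl fun j _ => ?_
  rw [Finset.sum_comm]
  refine Finset.sum_congr rfl fun k _ => ?_
  exact Finset.sum_comm

variable {𝕜 : Type} [RCLike 𝕜] {N : ℕ}

/-- From components to vectors. -/
theorem bil_inv (S : GeometricSystem 𝕜 N) (u : Fin N → 𝕜) (H : Fin N → Fin N → 𝕜)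
    (h : ∀ j k l w, ∑ i, H i w * (S.β u i j k l - 1 / 3 * S.curvComp u i j k l
        + 1 / 3 * S.curvComp u i l j k) =
      ∑ i, H l i * (S.β u i k j w - 1 / 3 * S.curvComp u i k j w + 1 / 3 * S.curvComp u i w k j))
    (X Y Z W : Fin N → 𝕜) :
    bil H (S.σ u X Y Z) W = bil H Z (S.σ u Y X W) := by
  have e1 : bil H (S.σ u X Y Z) W = ∑ j, ∑ k, ∑ l, ∑ w,
      (∑ i, H i w * (S.β u i j k l - 1 / 3 * S.curvComp u i j k l
        + 1 / 3 * S.curvComp u i l j k)) * X j * Y k * Z l * W w := by
    unfold bil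
    simp only [sigma_comp, comp_sigma]
    rw [Finset.sum_comm, ← sum4_rot]
    refine Finset.sum_congr rfl fun w _ => ?_
    simp only [Finset.mul_sum, Finset.sum_mul]
    rw [Finset.sum_comm]
    refine Finset.sum_congr rfl fun j _ => ?_
    rw [Finset.sum_comm]
    refine Finset.sum_congr rfl fun k _ => ?_
    rw [Finset.sum_comm]
    refine Finset.sum_congr rfl fun l _ => Finset.sum_congr rfl fun i _ => ?_
    ring
  have e2 : bil H Z (S.σ u Y X W) = ∑ j, ∑ k, ∑ l, ∑ w,
      (∑ i, H l i * (S.β u i k j w - 1 / 3 * S.curvComp u i k j w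
        + 1 / 3 * S.curvComp u i w k j)) * X j * Y k * Z l * W w := by
    unfold bil
    simp only [sigma_comp, comp_sigma]
    simp only [Finset.mul_sum, Finset.sum_mul]
    have f1 : ∀ l i, (∑ k, ∑ j, ∑ w, H l i * Z l * ((S.β u i k j w - 1 / 3 * S.curvComp u i k j w
        + 1 / 3 * S.curvComp u i w k j) * Y k * X j * W w)) =
        ∑ j, ∑ k, ∑ w, H l i * Z l * ((S.β u i k j w - 1 / 3 * S.curvComp u i k j w
        + 1 / 3 * S.curvComp u i w k j) * Y k * X j * W w) := fun l i => Finset.sum_comm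
    simp only [f1]
    have f2 : ∀ l, (∑ i, ∑ j, ∑ k, ∑ w, H l i * Z l * ((S.β u i k j w
        - 1 / 3 * S.curvComp u i k j w + 1 / 3 * S.curvComp u i w k j) * Y k * X j * W w)) =
        ∑ j, ∑ k, ∑ w, ∑ i, H l i * Z l * ((S.β u i k j w - 1 / 3 * S.curvComp u i k j w
        + 1 / 3 * S.curvComp u i w k j) * Y k * X j * W w) := by
      intro l
      exact sum4_rot (fun j k w i => H l i * Z l * ((S.β u i k j w
        - 1 / 3 * S.curvComp u i k j w + 1 / 3 * S.curvComp u i w k j) * Y k * X j * W w))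
    simp only [f2]
    rw [Finset.sum_comm]
    refine Finset.sum_congr rfl fun j _ => ?_
    rw [Finset.sum_comm]
    refine Finset.sum_congr rfl fun k _ => Finset.sum_congr rfl fun l _ =>
      Finset.sum_congr rfl fun w _ => Finset.sum_congr rfl fun i _ => ?_
    ring
  rw [e1, e2]
  refine Finset.sum_congr rfl fun j _ => Finset.sum_congr rfl fun k _ =>
    Finset.sum_congr rfl fun l _ => Finset.sum_congr rfl fun w _ => ?_
  rw [h]

end Pool.Agent.Lib.H94J
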