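import Pool.Agent.Lib.H94J.T3
import Pool.Agent.Lib.H29J.Le

/-!
# T2: conservation laws from an invariant form
-/

set_option autoImplicit false

namespace Pool.Agent.Lib.H94J

open Pool.Agent.Lib.H99JetCalc Pool.Agent.Lib.H29J GeometricSystem

variable {𝕜 : Type} [RCLike 𝕜] {N : ℕ}

/-- Restriction of a system to a smaller domain. -/
def res (S : GeometricSystem 𝕜 N) (U : Set (Fin N → 𝕜)) (hU : IsOpen U) (hUd : U ⊆ S.dom)
    (hne : U.Nonempty) : GeometricSystem 𝕜 N where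
  dom := U
  isOpen_dom := hU
  nonempty_dom := hne
  α := S.α
  β := S.β
  analytic_α i j k := fun u hu => S.analytic_α i j k u (hUd hu)
  analytic_β i j k m := fun u hu => S.analytic_β i j k m u (hUd hu)
  symm_β := fun u hu => S.symm_β u (hUd hu)

/-- Laws of every order on the whole domain. -/
theorem laws_dom (S : GeometricSystem 𝕜 N) (hT : S.ZeroTorsion) (h2 : S.C2) (h3 : S.C3)
    (h4 : S.C4) (h5 : S.C5) (g : (Fin N → 𝕜) → Fin N → Fin N → 𝕜) (h : InvForm S S.dom g)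
    (m : ℕ) : ∃ (ρ θ : Jet 𝕜 N → 𝕜) (q : ℕ), IsDifferentialFunction (m + 1) S.jets ρ ∧
      IsDifferentialFunction q S.jets θ ∧
      (∀ j ∈ S.jets, evolDeriv S.rhs ρ j = totalDeriv θ j) ∧
      ∀ j ∈ S.jets, topHessian (m + 1) ρ j = Matrix.of (fun a b => 2 * g (j 0) a b) := by
  have hx := ric_isRic (S := S) h2 h4 h5
  obtain ⟨F, hF⟩ : ∃ F : Fin N → diffAlg S.jets,
    F = (nab S h2 h4 h5 (vel S)).f ((nab S h2 h4 h5 (vel S)).f (vel S))
      + (jts S h4 h5).tri (vel S) (vel S) (vel S) := ⟨_, rfl⟩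
  obtain ⟨θ0, hθ0⟩ := dyn hT h2 h3 h4 h5 h hx F hF (2 * m + 1) (by omega)
  obtain ⟨η, hη, hH⟩ := reduced h h2 h4 h5 hx m
  obtain ⟨r, hr⟩ : ∃ r : diffAlg S.jets,
    r = (-1 : 𝕜) ^ m • (gf h (ric h2 h4 h5 (2 * m + 1)) (vel S)
      - (jetCalc (isOpen_jets S)).D η) := ⟨_, rfl⟩
  obtain ⟨t, ht⟩ : ∃ t : diffAlg S.jets,
    t = (-1 : 𝕜) ^ m • (θ0 - ev (isOpen_jets S) F η) := ⟨_, rfl⟩
  have hrO : r ∈ Ord S.jets (m + 1) := by
    rw [hr]; exact Submodule.smul_mem _ _ hη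
  have hcons : ev (isOpen_jets S) F r = (jetCalc (isOpen_jets S)).D t := by
    rw [hr, ht, Derivation.map_smul, Derivation.map_smul, map_sub, map_sub, hθ0, ev_D]
  have hρ : ∀ j : S.jets, ext0 S.jets r.1 j = r.1 j := fun j => ext0_mem _ _
  have hθ : ∀ j : S.jets, ext0 S.jets t.1 j = t.1 j := fun j => ext0_mem _ _
  obtain ⟨q, ft, hft⟩ := rep_coe t
  refine ⟨ext0 S.jets r.1, ext0 S.jets t.1, q, ?_, ?_, ?_, ?_⟩
  · obtain ⟨f, hf⟩ := hrO
    exact ⟨f, fun j hj => ⟨(hf ⟨j, hj⟩).1, by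
      rw [hρ ⟨j, hj⟩]; exact (hf ⟨j, hj⟩).2⟩⟩
  · exact ⟨ft, fun j hj => ⟨(hft ⟨j, hj⟩).1, by
      rw [hθ ⟨j, hj⟩]; exact (hft ⟨j, hj⟩).2⟩⟩
  · intro j hj
    rw [evolDeriv_ev (isOpen_jets S) S.rhs F (fun j i => by
      rw [hF]; exact (rhs_eq S hT h2 h4 h5 j i).symm) _ r hρ ⟨j, hj⟩,
      totalDeriv_eq (isOpen_jets S) t _ hθ ⟨j, hj⟩, hcons]
  · intro j hj
    ext a b
    rw [topHess_eq (isOpen_jets S) (m + 1) _ r hρ ⟨j, hj⟩ a b, hr, Derivation.map_smul,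
      Derivation.map_smul, hH, smul_smul, ← mul_pow]
    have e : ((-1 : 𝕜) * -1) ^ m = 1 := by norm_num
    rw [e, one_smul]
    rfl

/-- Laws of every order over an open set on which there is an invariant form. -/
theorem laws (S : GeometricSystem 𝕜 N) (hT : S.ZeroTorsion) (h2 : S.C2) (h3 : S.C3)
    (h4 : S.C4) (h5 : S.C5) (U : Set (Fin N → 𝕜)) (hU : IsOpen U) (hUd : U ⊆ S.dom)
    (hne : U.Nonempty) (g : (Fin N → 𝕜) → Fin N → Fin N → 𝕜) (h : InvForm S U g) (m : ℕ) :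
    ∃ (ρ θ : Jet 𝕜 N → 𝕜) (q : ℕ), IsDifferentialFunction (m + 1) {j | j 0 ∈ U} ρ ∧
      IsDifferentialFunction q {j | j 0 ∈ U} θ ∧
      (∀ j, j 0 ∈ U → evolDeriv S.rhs ρ j = totalDeriv θ j) ∧
      ∀ j, j 0 ∈ U → topHessian (m + 1) ρ j = Matrix.of (fun a b => 2 * g (j 0) a b) := by
  have h' : InvForm (res S U hU hUd hne) U g :=
    { analytic := h.analytic
      symm := h.symm
      nondeg := h.nondeg
      parallel := h.parallel
      inv := h.inv }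
  exact laws_dom (res S U hU hUd hne) (fun u hu => hT u (hUd hu)) (fun u hu => h2 u (hUd hu))
    (fun u hu => h3 u (hUd hu)) (fun u hu => h4 u (hUd hu)) (fun u hu => h5 u (hUd hu)) g h' m

end Pool.Agent.Lib.H94J
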