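import Pool.Agent.Lib.H94J.R1

/-!
# T3: minimality of the order of a nondegenerate density
-/

set_option autoImplicit false

namespace Pool.Agent.Lib.H94J

open Pool.Agent.Lib.H99JetCalc Pool.Agent.Lib.H29J

variable {𝕜 : Type} [RCLike 𝕜] {N : ℕ}

/-- Top Hessians in the algebra of differential functions. -/
theorem topHess_eq {Ω : Set (Jet 𝕜 N)} (hΩ : IsOpen Ω) (k : ℕ) (ρ : Jet 𝕜 N → 𝕜)
    (r : diffAlg Ω) (hr : ∀ j : Ω, ρ j = r.1 j) (j : Ω) (a b : Fin N) :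
    topHessian k ρ j a b = ((jetCalc hΩ).pd k a ((jetCalc hΩ).pd k b r)).1 j := by
  have h1 : ∀ j : Ω, jetDeriv k b ρ j = ((jetCalc hΩ).pd k b r).1 j :=
    fun j => jetDeriv_eq hΩ r ρ hr k b j
  exact jetDeriv_eq hΩ ((jetCalc hΩ).pd k b r) (jetDeriv k b ρ) h1 k a j

/-- A density equivalent to one of lower order has a vanishing top Hessian. -/
theorem minimal {Ω : Set (Jet 𝕜 N)} (hΩ : IsOpen Ω) {k : ℕ} (hk : 1 ≤ k)
    (ρ ρ' η : Jet 𝕜 N → 𝕜) {k' m : ℕ} (hk' : k' < k) (h1 : IsDifferentialFunction k Ω ρ)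
    (h2 : IsDifferentialFunction k' Ω ρ') (h3 : IsDifferentialFunction m Ω η)
    (h : ∀ j ∈ Ω, ρ j = ρ' j + totalDeriv η j) : ∀ j ∈ Ω, topHessian k ρ j = 0 := by
  obtain ⟨f1, hf1⟩ := h1
  obtain ⟨f2, hf2⟩ := h2
  obtain ⟨f3, hf3⟩ := h3
  obtain ⟨r, hr⟩ : ∃ r : diffAlg Ω, r = ⟨fun j => ρ j, k, f1, fun j => hf1 j j.2⟩ := ⟨_, rfl⟩
  obtain ⟨s, hs⟩ : ∃ s : diffAlg Ω, s = ⟨fun j => ρ' j, k', f2, fun j => hf2 j j.2⟩ := ⟨_, rfl⟩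
  obtain ⟨t, ht⟩ : ∃ t : diffAlg Ω, t = ⟨fun j => η j, m, f3, fun j => hf3 j j.2⟩ := ⟨_, rfl⟩
  have hr1 : ∀ j : Ω, ρ j = r.1 j := fun j => by rw [hr]
  have ht1 : ∀ j : Ω, η j = t.1 j := fun j => by rw [ht]
  have rO : r ∈ Ord Ω k := ⟨f1, fun j => by rw [hr]; exact hf1 j j.2⟩
  have sO : s ∈ Ord Ω k' := ⟨f2, fun j => by rw [hs]; exact hf2 j j.2⟩
  have e : r = s + (jetCalc hΩ).D t := by
    apply Subtype.ext
    funext j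
    show r.1 j = s.1 j + ((jetCalc hΩ).D t).1 j
    rw [← hr1, h j j.2, totalDeriv_eq hΩ t η ht1 j, hs]
  have hD : ∀ p, k < p → ∀ a, (jetCalc hΩ).pd p a ((jetCalc hΩ).D t) = 0 := by
    intro p hp a
    have e1 : (jetCalc hΩ).D t = r - s := by rw [e]; abel
    rw [e1, map_sub, pd_Ord hΩ hp a rO, pd_Ord hΩ (by omega) a sO, sub_zero]
  have h0 := (jetCalc hΩ).pd_eq_zero_of_pd_D hD
  intro j hj
  ext a b
  rw [topHess_eq hΩ k ρ r hr1 ⟨j, hj⟩ a b]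
  obtain ⟨K, rfl⟩ : ∃ K, k = K + 1 := ⟨k - 1, by omega⟩
  have e2 : (jetCalc hΩ).pd (K + 1) b r = (jetCalc hΩ).pd K b t := by
    rw [e, map_add, pd_Ord hΩ hk' b sO, zero_add, (jetCalc hΩ).pd_D_succ, h0 (K + 1) le_rfl b,
      map_zero, zero_add]
  rw [e2, (jetCalc hΩ).pd_comm, h0 (K + 1) le_rfl a, map_zero]
  rfl

end Pool.Agent.Lib.H94J
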