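import Pool.Agent.Lib.H94J.Defs
import Pool.Agent.Lib.H29J.H

/-!
# T4: the trace form of a geometric system

`g(X,Y) = tr (D(X,Y) + D(Y,X))`, where `D(X,Y) Z = σ(X,Y,Z)`, is a symmetric parallel form
invariant under `σ`.
-/

set_option autoImplicit false

namespace Pool.Agent.Lib.H94J

open Pool.Agent.Lib.H99JetCalc Pool.Agent.Lib.H29J GeometricSystem

variable {𝕜 : Type} [RCLike 𝕜] {N : ℕ}

/-- The trace form `g_ab = σ^c_abc + σ^c_bac` of a geometric system. -/
noncomputable def trF (S : GeometricSystem 𝕜 N) (u : Fin N → 𝕜) (a b : Fin N) : 𝕜 :=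
  ∑ c, (GeometricSystem.comp S.σ c a b c u + GeometricSystem.comp S.σ c b a c u)

/-- The matrix of `D(X,Y)`. -/
noncomputable def t4_M (S : GeometricSystem 𝕜 N) (u X Y : Fin N → 𝕜) : Matrix (Fin N) (Fin N) 𝕜 :=
  Matrix.of fun i c => S.σ u X Y (Pi.single c 1) i

theorem t4_apply (S : GeometricSystem 𝕜 N) (u X Y Z : Fin N → 𝕜) (i : Fin N) :
    S.σ u X Y Z i = ∑ c, S.σ u X Y (Pi.single c 1) i * Z c := by
  simp only [sigma_comp, Finset.sum_mul]
  rw [Finset.sum_comm]
  conv_rhs => rw [Finset.sum_comm]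
  rw [Finset.sum_comm]
  refine Finset.sum_congr rfl fun j _ => ?_
  conv_rhs => rw [Finset.sum_comm]
  refine Finset.sum_congr rfl fun k _ => ?_
  refine Finset.sum_congr rfl fun l _ => ?_
  rw [Finset.sum_eq_single l]
  · simp
  · intro b _ hb
    simp [hb]
  · simp

theorem t4_mul (S : GeometricSystem 𝕜 N) (u X Y Z W : Fin N → 𝕜) (i c : Fin N) :
    (t4_M S u X Y * t4_M S u Z W) i c = S.σ u X Y (S.σ u Z W (Pi.single c 1)) i := by
  rw [Matrix.mul_apply, t4_apply]
  rfl

/-- `t(X,Y) = tr D(X,Y)`. -/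
noncomputable def t4_t (S : GeometricSystem 𝕜 N) (u X Y : Fin N → 𝕜) : 𝕜 := (t4_M S u X Y).trace

/-- The commutator of two operators `D`. -/
theorem t4_comm (S : GeometricSystem 𝕜 N) (h4 : S.C4) (h5 : S.C5) {u : Fin N → 𝕜}
    (hu : u ∈ S.dom) (Z Y X V : Fin N → 𝕜) :
    t4_M S u Z Y * t4_M S u X V - t4_M S u X V * t4_M S u Z Y =
      t4_M S u (S.σ u Z Y X) V - t4_M S u X (S.σ u Y Z V) := by
  ext i c
  rw [Matrix.sub_apply, Matrix.sub_apply, t4_mul, t4_mul]
  have h := congrFun (h5 u hu X Y Z V (Pi.single c 1)) i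
  have e1 : S.σ u (Pi.single c 1) V (S.σ u X Y Z) = S.σ u (S.σ u Z Y X) V (Pi.single c 1) := by
    rw [h4 u hu (Pi.single c 1) V (S.σ u X Y Z), h4 u hu X Y Z]
  rw [e1] at h
  simp only [Pi.add_apply, Pi.sub_apply, Pi.zero_apply] at h
  show S.σ u Z Y (S.σ u X V (Pi.single c 1)) i - S.σ u X V (S.σ u Z Y (Pi.single c 1)) i =
    S.σ u (S.σ u Z Y X) V (Pi.single c 1) i - S.σ u X (S.σ u Y Z V) (Pi.single c 1) i
  linear_combination h

theorem t4_inv (S : GeometricSystem 𝕜 N) (h4 : S.C4) (h5 : S.C5) {u : Fin N → 𝕜}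
    (hu : u ∈ S.dom) (Z Y X V : Fin N → 𝕜) :
    t4_t S u (S.σ u Z Y X) V = t4_t S u X (S.σ u Y Z V) := by
  have h := congrArg Matrix.trace (t4_comm S h4 h5 hu Z Y X V)
  rw [Matrix.trace_sub, Matrix.trace_sub, Matrix.trace_mul_comm, sub_self] at h
  exact (sub_eq_zero.mp h.symm)

theorem t4_bil (S : GeometricSystem 𝕜 N) (u X Y : Fin N → 𝕜) :
    bil (trF S u) X Y = t4_t S u X Y + t4_t S u Y X := by
  have e1 : ∀ X Y : Fin N → 𝕜, t4_t S u X Y =
      ∑ a, ∑ b, (∑ c, comp S.σ c a b c u) * X a * Y b := by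
    intro X Y
    have e : t4_t S u X Y = ∑ c, S.σ u X Y (Pi.single c 1) c := rfl
    rw [e]
    simp only [sigma_comp, Finset.sum_mul]
    rw [Finset.sum_comm]
    refine Finset.sum_congr rfl fun a _ => ?_
    rw [Finset.sum_comm]
    refine Finset.sum_congr rfl fun b _ => ?_
    refine Finset.sum_congr rfl fun c _ => ?_
    rw [Finset.sum_eq_single c]
    · simp
    · intro d _ hd
      simp [hd]
    · simp
  have e2 : t4_t S u Y X = ∑ a, ∑ b, (∑ c, comp S.σ c b a c u) * X a * Y b := by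
    rw [e1 Y X, Finset.sum_comm]
    refine Finset.sum_congr rfl fun a _ => Finset.sum_congr rfl fun b _ => ?_
    ring
  rw [e1 X Y, e2]
  unfold bil trF
  rw [← Finset.sum_add_distrib]
  refine Finset.sum_congr rfl fun a _ => ?_
  rw [← Finset.sum_add_distrib]
  refine Finset.sum_congr rfl fun b _ => ?_
  rw [Finset.sum_add_distrib]
  ring

theorem t4_analytic (S : GeometricSystem 𝕜 N) (a b : Fin N) :
    AnalyticOnNhd 𝕜 (fun u => trF S u a b) S.dom := by
  intro u hu
  unfold trF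
  exact Finset.analyticAt_fun_sum _ fun c _ =>
    (sig_analytic S c a b c u hu).add (sig_analytic S c b a c u hu)

/-- The derivative of a contracted component. -/
theorem t4_pdu (S : GeometricSystem 𝕜 N) (h2 : S.C2) {u : Fin N → 𝕜} (hu : u ∈ S.dom)
    (m a b : Fin N) :
    ∑ c, pdu m (comp S.σ c a b c) u =
      ∑ s, (S.α u s m a * ∑ c, comp S.σ c s b c u + S.α u s m b * ∑ c, comp S.σ c a s c u) := by
  have h : ∀ c, pdu m (comp S.σ c a b c) u =
      ∑ s, (S.α u s m a * comp S.σ c s b c u + S.α u s m b * comp S.σ c a s c u) +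
        (∑ s, S.α u s m c * comp S.σ c a b s u - ∑ s, S.α u c m s * comp S.σ s a b c u) := by
    intro c
    have h := h2 u hu m c a b c
    unfold GeometricSystem.covDeriv at h
    simp only [Finset.sum_sub_distrib, Finset.sum_add_distrib] at h ⊢
    linear_combination h
  have e : ∑ c, ∑ s, S.α u s m c * comp S.σ c a b s u =
      ∑ c, ∑ s, S.α u c m s * comp S.σ s a b c u := Finset.sum_comm
  rw [Finset.sum_congr rfl fun c _ => h c, Finset.sum_add_distrib, Finset.sum_sub_distrib, e,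
    sub_self, add_zero, Finset.sum_comm]
  refine Finset.sum_congr rfl fun s _ => ?_
  rw [Finset.sum_add_distrib, Finset.mul_sum, Finset.mul_sum]

theorem trF_inv (S : GeometricSystem 𝕜 N) (h2 : S.C2) (h4 : S.C4) (h5 : S.C5)
    (U : Set (Fin N → 𝕜)) (hU : U ⊆ S.dom)
    (hdet : ∀ u ∈ U, (Matrix.of (trF S u)).det ≠ 0) : InvForm S U (trF S) where
  analytic a b := (t4_analytic S a b).mono hU
  symm u _ a b := by
    unfold trF
    exact Finset.sum_congr rfl fun c _ => add_comm _ _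
  nondeg := hdet
  parallel u hu m a b := by
    have hu' := hU hu
    have hd : ∀ c a b : Fin N, DifferentiableAt 𝕜 (comp S.σ c a b c) u := fun c a b =>
      (sig_analytic S c a b c u hu').differentiableAt
    have e : pdu m (fun u => trF S u a b) u =
        ∑ c, (pdu m (comp S.σ c a b c) u + pdu m (comp S.σ c b a c) u) := by
      unfold pdu
      have e0 : (fun u => trF S u a b) =
          fun u => ∑ c, (comp S.σ c a b c u + comp S.σ c b a c u) := rfl
      have e1 := fderiv_fun_sum (u := Finset.univ)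
        (A := fun (c : Fin N) (u : Fin N → 𝕜) => comp S.σ c a b c u + comp S.σ c b a c u)
        (x := u) (𝕜 := 𝕜) fun c _ => (hd c a b).fun_add (hd c b a)
      rw [e0, e1, ContinuousLinearMap.sum_apply]
      refine Finset.sum_congr rfl fun c _ => ?_
      rw [fderiv_fun_add (hd c a b) (hd c b a), ContinuousLinearMap.add_apply]
    rw [e, Finset.sum_add_distrib, t4_pdu S h2 hu', t4_pdu S h2 hu', ← Finset.sum_add_distrib]
    refine Finset.sum_congr rfl fun s _ => ?_
    unfold trF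
    rw [Finset.sum_add_distrib, Finset.sum_add_distrib]
    ring
  inv u hu X Y Z W := by
    rw [t4_bil, t4_bil, t4_inv S h4 h5 (hU hu), ← t4_inv S h4 h5 (hU hu) Y X W Z]

end Pool.Agent.Lib.H94J
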